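import Pool.Agent.Q162.Sph.Forest

/-!
# The component identity for the inversion enumerators
-/

namespace Q162Sph

open Finset

variable {α : Type*} [LinearOrder α]

/-- The sum over the possible components. -/
noncomputable def EE (t : ℕ) (S R : Finset α) : ℕ :=
  ∑ X ∈ S.powerset, t ^ X.card * AA (t + 1) X R * (t + 1) ^ ((S \ X).card.choose 2)

theorem sum_nested (S : Finset α) (f : Finset α → Finset α → ℕ) :
    ∑ X ∈ S.powerset, ∑ Y ∈ X.powerset, f X Y =
      ∑ Y ∈ S.powerset, ∑ Z ∈ (S \ Y).powerset, f (Y ∪ Z) Y := by
  rw [Finset.sum_sigma', Finset.sum_sigma']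
  refine Finset.sum_bij' (fun z _ => ⟨z.2, z.1 \ z.2⟩) (fun z _ => ⟨z.1 ∪ z.2, z.1⟩) ?_ ?_ ?_ ?_ ?_
  · rintro ⟨X, Y⟩ hz
    simp only [mem_sigma, mem_powerset] at hz ⊢
    exact ⟨hz.2.trans hz.1, Finset.sdiff_subset_sdiff hz.1 (Finset.Subset.refl _)⟩
  · rintro ⟨Y, Z⟩ hz
    simp only [mem_sigma, mem_powerset] at hz ⊢
    exact ⟨Finset.union_subset hz.1 (hz.2.trans Finset.sdiff_subset), Finset.subset_union_left⟩
  · rintro ⟨X, Y⟩ hz
    simp only [mem_sigma, mem_powerset] at hz
    simp only [Finset.union_sdiff_of_subset hz.2]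
  · rintro ⟨Y, Z⟩ hz
    simp only [mem_sigma, mem_powerset] at hz
    have : (Y ∪ Z) \ Y = Z := by
      rw [Finset.union_sdiff_left]
      exact Finset.sdiff_eq_self_of_disjoint
        (Finset.disjoint_of_subset_left hz.2 Finset.sdiff_disjoint)
    simp only [this]
  · rintro ⟨X, Y⟩ hz
    simp only [mem_sigma, mem_powerset] at hz
    simp only [Finset.union_sdiff_of_subset hz.2]

theorem EE_congr (t : ℕ) (S R R' : Finset α) (h : ∀ x ∈ S, x ∈ R ↔ x ∈ R') :
    EE t S R = EE t S R' := by
  unfold EE
  refine Finset.sum_congr rfl fun X hX => ?_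
  rw [AA_congr (t + 1) X R R' (fun x hx => h x (mem_powerset.mp hX hx))]

theorem EE_insert (t : ℕ) (S R : Finset α) (v : α) (hv : v ∈ S) (hR : v ∉ R) :
    EE t S (insert v R) = EE t S R + t * ∑ Y ∈ (S.erase v).powerset,
      t ^ Y.card * (t + 1) ^ (Y.filter (fun y => y < v)).card * AA (t + 1) Y Y *
        EE t (S.erase v \ Y) R := by
  have hS : S = insert v (S.erase v) := (Finset.insert_erase hv).symm
  have hv0 : v ∉ S.erase v := Finset.notMem_erase v S
  have h1 : ∀ R', EE t S R' =
      ∑ X ∈ (S.erase v).powerset, t ^ X.card * AA (t + 1) X R' * (t + 1) ^ ((S \ X).card.choose 2)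
      + ∑ X ∈ (S.erase v).powerset, t ^ (X.card + 1) * AA (t + 1) (insert v X) R' *
        (t + 1) ^ ((S.erase v \ X).card.choose 2) := by
    intro R'
    unfold EE
    conv_lhs => rw [hS, Finset.sum_powerset_insert hv0]
    congr 1
    · refine Finset.sum_congr rfl fun X hX => ?_
      rw [← hS]
    · refine Finset.sum_congr rfl fun X hX => ?_
      have hvX : v ∉ X := fun h => hv0 (mem_powerset.mp hX h)
      rw [Finset.card_insert_of_notMem hvX]
      congr 4
      ext x
      simp only [mem_sdiff, mem_insert, mem_erase]
      tauto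
  rw [h1, h1, add_assoc]
  congr 1
  · refine Finset.sum_congr rfl fun X hX => ?_
    have hvX : v ∉ X := fun h => hv0 (mem_powerset.mp hX h)
    rw [AA_congr (t + 1) X (insert v R) R]
    intro x hx
    rw [mem_insert]
    constructor
    · rintro (h | h)
      · exact absurd (h ▸ hx) hvX
      · exact h
    · exact Or.inr
  · have h2 : ∀ X ∈ (S.erase v).powerset, t ^ (X.card + 1) * AA (t + 1) (insert v X) (insert v R) *
        (t + 1) ^ ((S.erase v \ X).card.choose 2) =
        t ^ (X.card + 1) * AA (t + 1) (insert v X) R *
        (t + 1) ^ ((S.erase v \ X).card.choose 2) +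
        ∑ Y ∈ X.powerset, t ^ (X.card + 1) * ((t + 1) ^ (Y.filter (fun y => y < v)).card *
          AA (t + 1) Y Y * AA (t + 1) (X \ Y) R) * (t + 1) ^ ((S.erase v \ X).card.choose 2) := by
      intro X hX
      have hvX : v ∉ X := fun h => hv0 (mem_powerset.mp hX h)
      rw [AA_insert (t + 1) (insert v X) R v (mem_insert_self v X) hR,
        Finset.erase_insert hvX, mul_add, add_mul, Finset.mul_sum, Finset.sum_mul]
    rw [Finset.sum_congr rfl h2, Finset.sum_add_distrib]
    congr 1
    rw [sum_nested, Finset.mul_sum]
    refine Finset.sum_congr rfl fun Y hY => ?_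
    unfold EE
    rw [Finset.mul_sum, Finset.mul_sum]
    refine Finset.sum_congr rfl fun Z hZ => ?_
    rw [mem_powerset] at hY hZ
    have hd : Disjoint Y Z := Finset.disjoint_of_subset_right hZ Finset.disjoint_sdiff
    have e1 : (Y ∪ Z) \ Y = Z := by
      rw [Finset.union_sdiff_left]
      exact Finset.sdiff_eq_self_of_disjoint hd.symm
    have e2 : S.erase v \ (Y ∪ Z) = (S.erase v \ Y) \ Z := by
      rw [Finset.sdiff_sdiff_left']
      ext x
      simp only [mem_sdiff, mem_union, mem_inter]
      tauto
    rw [Finset.card_union_of_disjoint hd, e1, e2]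
    ring

theorem EE_no_roots (t : ℕ) (S R : Finset α) (h : ∀ x ∈ S, x ∉ R) :
    EE t S R = (t + 1) ^ (S.card.choose 2) := by
  unfold EE
  rw [Finset.sum_eq_single ∅]
  · rw [AA_empty, Finset.card_empty, pow_zero, Finset.sdiff_empty]
    ring
  · intro X hX hne
    rw [AA_no_roots (t + 1) X R (Finset.nonempty_iff_ne_empty.mpr hne)
      (fun x hx => h x (mem_powerset.mp hX hx))]
    ring
  · intro h'
    exact absurd (Finset.empty_mem_powerset S) h'

theorem EE_eq (t : ℕ) (n : ℕ) : ∀ (S : Finset α), S.card = n → ∀ R : Finset α,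
    (∀ x ∈ S, x ∈ R → ∀ y ∈ S, y < x → y ∈ R) →
    EE t S R = (t + 1) ^ ((S.filter (fun x => x ∈ R)).card + S.card.choose 2) := by
  induction n using Nat.strong_induction_on with
  | _ n ih =>
    intro S hS
    have inner : ∀ (k : ℕ) (R : Finset α), (S.filter (fun x => x ∈ R)).card = k →
        (∀ x ∈ S, x ∈ R → ∀ y ∈ S, y < x → y ∈ R) →
        EE t S R = (t + 1) ^ ((S.filter (fun x => x ∈ R)).card + S.card.choose 2) := by
      intro k
      induction k with
      | zero =>
        intro R hk hdc
        rw [hk, zero_add]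
        apply EE_no_roots
        intro x hx hxR
        rw [Finset.card_eq_zero] at hk
        have : x ∈ S.filter (fun x => x ∈ R) := mem_filter.mpr ⟨hx, hxR⟩
        rw [hk] at this
        exact absurd this (Finset.notMem_empty _)
      | succ k ihk =>
        intro R hk hdc
        have hne : (S.filter (fun x => x ∈ R)).Nonempty := by
          rw [← Finset.card_pos]
          omega
        set v := (S.filter (fun x => x ∈ R)).max' hne with hvdef
        have hvmem : v ∈ S.filter (fun x => x ∈ R) := Finset.max'_mem _ _
        have hvmax : ∀ x ∈ S, x ∈ R → x ≤ v := fun x hx hxR =>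
          Finset.le_max' _ _ (mem_filter.mpr ⟨hx, hxR⟩)
        rw [mem_filter] at hvmem
        set R' := (S.filter (fun x => x ∈ R)).erase v with hR'
        have hvR' : v ∉ R' := Finset.notMem_erase _ _
        have hmemR' : ∀ x, x ∈ R' ↔ x ≠ v ∧ x ∈ S ∧ x ∈ R := by
          intro x
          rw [hR', mem_erase, mem_filter]
        have hltR' : ∀ y ∈ S, y < v ↔ y ∈ R' := by
          intro y hy
          rw [hmemR']
          constructor
          · intro h
            exact ⟨h.ne, hy, hdc v hvmem.1 hvmem.2 y hy h⟩
          · rintro ⟨h1, h2, h3⟩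
            exact lt_of_le_of_ne (hvmax y h2 h3) h1
        have hfil : S.filter (fun x => x ∈ R') = R' := by
          ext x
          rw [mem_filter, hmemR']
          tauto
        have hcardR' : R'.card = k := by
          rw [hR', Finset.card_erase_of_mem (mem_filter.mpr hvmem), hk]
          rfl
        have e1 : EE t S R = EE t S (insert v R') := by
          apply EE_congr
          intro x hx
          rw [mem_insert, hmemR']
          constructor
          · intro h
            by_cases hxv : x = v
            · exact Or.inl hxv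
            · exact Or.inr ⟨hxv, hx, h⟩
          · rintro (h | h)
            · rw [h]
              exact hvmem.2
            · exact h.2.2
        have e2 : EE t S R' = (t + 1) ^ (k + S.card.choose 2) := by
          rw [ihk R' (by rw [hfil, hcardR']) ?_, hfil, hcardR']
          intro x hx hxR y hy hyx
          rw [← hltR' x hx] at hxR
          rw [← hltR' y hy]
          exact lt_trans hyx hxR
        have hn : 1 ≤ n := by
          rw [← hS]
          exact Finset.card_pos.mpr ⟨v, hvmem.1⟩
        have hS0 : (S.erase v).card = n - 1 := by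
          rw [Finset.card_erase_of_mem hvmem.1, hS]
        have hR'S0 : R' ⊆ S.erase v := by
          intro x hx
          rw [hmemR'] at hx
          rw [mem_erase]
          exact ⟨hx.1, hx.2.1⟩
        have e3 : ∀ Y ∈ (S.erase v).powerset,
            t ^ Y.card * (t + 1) ^ (Y.filter (fun y => y < v)).card * AA (t + 1) Y Y *
              EE t (S.erase v \ Y) R' =
            (t + 1) ^ k * (t ^ Y.card * AA (t + 1) Y (S.erase v) *
              (t + 1) ^ ((S.erase v \ Y).card.choose 2)) := by
          intro Y hY
          rw [mem_powerset] at hY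
          have hc : (S.erase v \ Y).card < n := by
            have := Finset.card_le_card (Finset.sdiff_subset (s := S.erase v) (t := Y))
            omega
          have hYS : ∀ y ∈ Y, y ∈ S := fun y hy => (mem_erase.mp (hY hy)).2
          rw [ih _ hc (S.erase v \ Y) rfl R' ?_]
          · have h5 : (Y.filter (fun y => y < v)).card +
                ((S.erase v \ Y).filter (fun x => x ∈ R')).card = k := by
              rw [← hcardR', ← Finset.card_union_of_disjoint]
              · congr 1
                ext x
                rw [mem_union, mem_filter, mem_filter, mem_sdiff]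
                constructor
                · rintro (h | h)
                  · exact (hltR' x (hYS x h.1)).mp h.2
                  · exact h.2
                · intro h
                  by_cases hxY : x ∈ Y
                  · left
                    exact ⟨hxY, (hltR' x (hYS x hxY)).mpr h⟩
                  · right
                    exact ⟨⟨hR'S0 h, hxY⟩, h⟩
              · rw [Finset.disjoint_left]
                intro x hx hx'
                rw [mem_filter] at hx hx'
                exact (mem_sdiff.mp hx'.1).2 hx.1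
            rw [AA_congr (t + 1) Y Y (S.erase v) (fun x hx => ⟨fun _ => hY hx, fun _ => hx⟩),
              ← h5, pow_add, pow_add]
            ring
          · intro x hx hxR y hy hyx
            have hxS : x ∈ S := (mem_erase.mp (mem_sdiff.mp hx).1).2
            have hyS : y ∈ S := (mem_erase.mp (mem_sdiff.mp hy).1).2
            rw [← hltR' x hxS] at hxR
            rw [← hltR' y hyS]
            exact lt_trans hyx hxR
        have e4 : ∑ Y ∈ (S.erase v).powerset, (t ^ Y.card * AA (t + 1) Y (S.erase v) *
              (t + 1) ^ ((S.erase v \ Y).card.choose 2)) =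
              (t + 1) ^ ((n - 1) + (n - 1).choose 2) := by
          have h6 := ih (n - 1) (by omega) (S.erase v) hS0 (S.erase v) (fun _ _ _ y hy _ => hy)
          unfold EE at h6
          rw [h6, hS0]
          congr 2
          rw [Finset.filter_true_of_mem (fun x hx => hx), hS0]
        rw [e1, EE_insert t S R' v hvmem.1 hvR', e2, Finset.sum_congr rfl e3, ← Finset.mul_sum, e4,
          hk, hS]
        have h7 : n.choose 2 = (n - 1) + (n - 1).choose 2 := by
          obtain ⟨m, rfl⟩ : ∃ m, n = m + 1 := ⟨n - 1, by omega⟩
          rw [Nat.add_sub_cancel, Nat.choose_succ_succ' m 1, Nat.choose_one_right]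
        rw [h7]
        ring
    intro R hdc
    exact inner _ R rfl hdc

/-- The inversion enumerator of rooted trees on `X` in which the root is larger than its children,
not counting inversions involving the root. -/
noncomputable def UU (q : ℕ) (X : Finset α) : ℕ :=
  ∑ r ∈ X, AA q (X.erase r) (X.filter (fun x => x < r))

theorem sum_root (S : Finset α) (f : Finset α → α → ℕ) :
    ∑ X ∈ S.powerset, ∑ r ∈ X, f X r =
      ∑ r ∈ S, ∑ Z ∈ (S.erase r).powerset, f (insert r Z) r := by
  rw [Finset.sum_sigma', Finset.sum_sigma']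
  refine Finset.sum_bij' (fun z _ => ⟨z.2, z.1.erase z.2⟩) (fun z _ => ⟨insert z.1 z.2, z.1⟩)
    ?_ ?_ ?_ ?_ ?_
  · rintro ⟨X, r⟩ hz
    simp only [mem_sigma, mem_powerset] at hz ⊢
    exact ⟨hz.1 hz.2, Finset.erase_subset_erase _ hz.1⟩
  · rintro ⟨r, Z⟩ hz
    simp only [mem_sigma, mem_powerset] at hz ⊢
    exact ⟨Finset.insert_subset hz.1 (hz.2.trans (Finset.erase_subset _ _)), mem_insert_self _ _⟩
  · rintro ⟨X, r⟩ hz
    simp only [mem_sigma, mem_powerset] at hz
    simp only [Finset.insert_erase hz.2]
  · rintro ⟨r, Z⟩ hz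
    simp only [mem_sigma, mem_powerset] at hz
    have : r ∉ Z := fun h => (mem_erase.mp (hz.2 h)).1 rfl
    simp only [Finset.erase_insert this]
  · rintro ⟨X, r⟩ hz
    simp only [mem_sigma, mem_powerset] at hz
    simp only [Finset.insert_erase hz.2]

theorem sum_ranks (t : ℕ) (S : Finset α) :
    t * ∑ r ∈ S, (t + 1) ^ (S.filter (fun x => x < r)).card + 1 = (t + 1) ^ S.card := by
  induction S using Finset.induction_on_max with
  | empty => simp
  | insert m S hm ih =>
    have hmS : m ∉ S := fun h => lt_irrefl _ (hm m h)
    rw [Finset.sum_insert hmS, Finset.card_insert_of_notMem hmS]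
    have e1 : (insert m S).filter (fun x => x < m) = S := by
      ext x
      rw [mem_filter, mem_insert]
      constructor
      · rintro ⟨h | h, h'⟩
        · exact absurd h' (h ▸ lt_irrefl _)
        · exact h
      · intro h
        exact ⟨Or.inr h, hm x h⟩
    have e2 : ∀ r ∈ S, (t + 1) ^ ((insert m S).filter (fun x => x < r)).card =
        (t + 1) ^ (S.filter (fun x => x < r)).card := by
      intro r hr
      congr 2
      ext x
      rw [mem_filter, mem_filter, mem_insert]
      constructor
      · rintro ⟨h | h, h'⟩
        · exact absurd h' (h ▸ not_lt.mpr (hm r hr).le)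
        · exact ⟨h, h'⟩
      · rintro ⟨h, h'⟩
        exact ⟨Or.inr h, h'⟩
    rw [e1, Finset.sum_congr rfl e2, pow_succ, ← ih]
    ring

/-- The component identity for uprooted trees. -/
theorem UU_identity (t : ℕ) (S : Finset α) :
    ∑ X ∈ S.powerset, t ^ X.card * UU (t + 1) X * (t + 1) ^ ((S \ X).card.choose 2)
      + (t + 1) ^ ((S.card - 1).choose 2) = (t + 1) ^ (S.card + (S.card - 1).choose 2) := by
  have h1 : ∀ X ∈ S.powerset, t ^ X.card * UU (t + 1) X * (t + 1) ^ ((S \ X).card.choose 2) =
      ∑ r ∈ X, t ^ X.card * AA (t + 1) (X.erase r) (X.filter (fun x => x < r)) *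
        (t + 1) ^ ((S \ X).card.choose 2) := by
    intro X _
    unfold UU
    rw [Finset.mul_sum, Finset.sum_mul]
  rw [Finset.sum_congr rfl h1, sum_root]
  have h2 : ∀ r ∈ S, ∑ Z ∈ (S.erase r).powerset, t ^ (insert r Z).card *
      AA (t + 1) ((insert r Z).erase r) ((insert r Z).filter (fun x => x < r)) *
        (t + 1) ^ ((S \ insert r Z).card.choose 2) =
      t * ((t + 1) ^ (S.filter (fun x => x < r)).card * (t + 1) ^ ((S.card - 1).choose 2)) := by
    intro r hr
    have h3 := EE_eq t _ (S.erase r) rfl (S.filter (fun x => x < r)) (by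
      intro x _ hxR y hy hyx
      rw [mem_filter] at hxR ⊢
      exact ⟨(mem_erase.mp hy).2, lt_trans hyx hxR.2⟩)
    have h4 : (S.erase r).filter (fun x => x ∈ S.filter (fun x => x < r)) =
        S.filter (fun x => x < r) := by
      ext x
      rw [mem_filter, mem_filter, mem_erase]
      constructor
      · rintro ⟨_, h⟩
        exact h
      · rintro h
        exact ⟨⟨h.2.ne, h.1⟩, h⟩
    rw [h4, Finset.card_erase_of_mem hr] at h3
    rw [← pow_add, ← h3]
    unfold EE
    rw [Finset.mul_sum]
    refine Finset.sum_congr rfl fun Z hZ => ?_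
    rw [mem_powerset] at hZ
    have hrZ : r ∉ Z := fun h => (mem_erase.mp (hZ h)).1 rfl
    rw [Finset.erase_insert hrZ, Finset.card_insert_of_notMem hrZ]
    have e1 : S \ insert r Z = S.erase r \ Z := by
      ext x
      simp only [mem_sdiff, mem_insert, mem_erase]
      tauto
    rw [e1, AA_congr (t + 1) Z ((insert r Z).filter (fun x => x < r)) (S.filter (fun x => x < r))]
    · ring
    · intro x hx
      rw [mem_filter, mem_filter, mem_insert]
      constructor
      · rintro ⟨_, h⟩
        exact ⟨(mem_erase.mp (hZ hx)).2, h⟩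
      · rintro ⟨_, h⟩
        exact ⟨Or.inr hx, h⟩
  rw [Finset.sum_congr rfl h2, ← Finset.mul_sum, ← Finset.sum_mul, pow_add, ← sum_ranks t S]
  ring

end Q162Sph
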