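import Mathlib.Data.Fintype.Pi
import Mathlib.Algebra.BigOperators.Ring.Finset
import Mathlib.Algebra.Ring.GeomSum
import Mathlib.Analysis.SpecificLimits.Basic
import Mathlib.Tactic

/-!
# Prime parking functions and the classification of all sequences
-/

namespace Q162Sph

open Finset

variable {α : Type*} [Fintype α] [DecidableEq α]

/-- Functions with values in `(lo, hi]` on `S` and `0` elsewhere. -/
def FF (S : Finset α) (lo hi : ℕ) : Finset (α → ℕ) :=
  Fintype.piFinset (fun x => if x ∈ S then Ioc lo hi else {0})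

theorem mem_FF (S : Finset α) (lo hi : ℕ) (a : α → ℕ) :
    a ∈ FF S lo hi ↔ (∀ x ∈ S, lo < a x ∧ a x ≤ hi) ∧ ∀ x, x ∉ S → a x = 0 := by
  unfold FF
  rw [Fintype.mem_piFinset]
  constructor
  · intro h
    constructor
    · intro x hx
      have := h x
      rw [if_pos hx, mem_Ioc] at this
      exact this
    · intro x hx
      have := h x
      rw [if_neg hx, mem_singleton] at this
      exact this
  · rintro ⟨h1, h2⟩ x
    split_ifs with hx
    · rw [mem_Ioc]
      exact h1 x hx
    · rw [mem_singleton]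
      exact h2 x hx

/-- The prime condition on `X`: values in `[1, |X|]` on `X`, zero outside, and more than `j` values
at most `j` for `1 ≤ j < |X|`. -/
def IsPrimeOn (X : Finset α) (a : α → ℕ) : Prop :=
  (∀ x ∈ X, 1 ≤ a x ∧ a x ≤ X.card) ∧ (∀ x, x ∉ X → a x = 0) ∧
    ∀ j, 1 ≤ j → j < X.card → j + 1 ≤ (X.filter (fun x => a x ≤ j)).card

open Classical in
/-- The finite set of prime functions on `X`. -/
noncomputable def primes (X : Finset α) : Finset (α → ℕ) := (FF X 0 X.card).filter (IsPrimeOn X)

theorem mem_primes (X : Finset α) (a : α → ℕ) : a ∈ primes X ↔ IsPrimeOn X a := by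
  classical
  unfold primes
  rw [mem_filter, mem_FF]
  constructor
  · exact fun h => h.2
  · intro h
    exact ⟨⟨fun x hx => ⟨(h.1 x hx).1, (h.1 x hx).2⟩, h.2.1⟩, h⟩

/-- The weight of a function on `X`. -/
def wt (q M : ℕ) (X : Finset α) (a : α → ℕ) : ℕ := ∏ x ∈ X, q ^ (M - a x)

theorem sum_FF (q M lo : ℕ) (S : Finset α) :
    ∑ a ∈ FF S lo M, wt q M S a = (∑ i ∈ range (M - lo), q ^ i) ^ S.card := by
  unfold FF wt
  have h1 : ∀ a : α → ℕ, ∏ x ∈ S, q ^ (M - a x) = ∏ x, (if x ∈ S then q ^ (M - a x) else 1) := by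
    intro a
    rw [Finset.prod_ite_mem, Finset.univ_inter]
  simp only [h1]
  rw [← Finset.prod_univ_sum (fun x => if x ∈ S then Ioc lo M else {0})
    (fun x j => if x ∈ S then q ^ (M - j) else 1)]
  have h2 : ∀ x : α, ∑ j ∈ (if x ∈ S then Ioc lo M else {0}), (if x ∈ S then q ^ (M - j) else 1) =
      if x ∈ S then ∑ i ∈ range (M - lo), q ^ i else 1 := by
    intro x
    split_ifs with hx
    · refine Finset.sum_bij' (fun j _ => M - j) (fun i _ => M - i) ?_ ?_ ?_ ?_ ?_
      · intro j hj
        rw [mem_Ioc] at hj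
        rw [mem_range]
        omega
      · intro i hi
        rw [mem_range] at hi
        rw [mem_Ioc]
        omega
      · intro j hj
        rw [mem_Ioc] at hj
        omega
      · intro i hi
        rw [mem_range] at hi
        omega
      · intro j _
        rfl
    · rw [sum_singleton]
  simp only [h2]
  rw [Finset.prod_ite_mem, Finset.univ_inter, Finset.prod_const]

/-- The first index where the number of values at most `j` is at most `j`. -/
noncomputable def firstFail (S : Finset α) (a : α → ℕ) : ℕ :=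
  sInf {j | 1 ≤ j ∧ (S.filter (fun x => a x ≤ j)).card ≤ j}

omit [Fintype α] [DecidableEq α] in
theorem firstFail_spec (S : Finset α) (a : α → ℕ) (hS : S.Nonempty) :
    1 ≤ firstFail S a ∧ (S.filter (fun x => a x ≤ firstFail S a)).card ≤ firstFail S a ∧
      firstFail S a ≤ S.card ∧
      ∀ j, 1 ≤ j → j < firstFail S a → j + 1 ≤ (S.filter (fun x => a x ≤ j)).card := by
  have hmem : S.card ∈ {j | 1 ≤ j ∧ (S.filter (fun x => a x ≤ j)).card ≤ j} := by
    refine ⟨Finset.card_pos.mpr hS, Finset.card_filter_le _ _⟩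
  have h := Nat.sInf_mem ⟨_, hmem⟩
  refine ⟨h.1, h.2, Nat.sInf_le hmem, ?_⟩
  intro j hj hlt
  by_contra hcon
  exact Nat.notMem_of_lt_sInf hlt ⟨hj, by omega⟩

omit [Fintype α] [DecidableEq α] in
theorem firstFail_eq (S : Finset α) (a : α → ℕ) (m : ℕ) (hm : 1 ≤ m)
    (h1 : (S.filter (fun x => a x ≤ m)).card ≤ m)
    (h2 : ∀ j, 1 ≤ j → j < m → j + 1 ≤ (S.filter (fun x => a x ≤ j)).card) :
    firstFail S a = m := by
  apply le_antisymm
  · exact Nat.sInf_le ⟨hm, h1⟩
  · by_contra hlt
    push Not at hlt
    have h := Nat.sInf_mem (s := {j | 1 ≤ j ∧ (S.filter (fun x => a x ≤ j)).card ≤ j}) ⟨m, hm, h1⟩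
    have h3 := h2 _ h.1 hlt
    have h4 := h.2
    unfold firstFail at h3
    omega

/-- Cutting a function. -/
def cut (X : Finset α) (a : α → ℕ) : α → ℕ := fun x => if x ∈ X then a x else 0

omit [Fintype α] in
theorem cut_mem (X : Finset α) (a : α → ℕ) (x : α) (hx : x ∈ X) : cut X a x = a x := if_pos hx

omit [Fintype α] in
theorem cut_notMem (X : Finset α) (a : α → ℕ) (x : α) (hx : x ∉ X) : cut X a x = 0 := if_neg hx

/-- The first prime part. -/
noncomputable def part (S : Finset α) (a : α → ℕ) : Finset α :=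
  S.filter (fun x => a x ≤ firstFail S a)

omit [Fintype α] [DecidableEq α] in
theorem part_spec (S : Finset α) (a : α → ℕ) (ha : ∀ x ∈ S, 0 < a x) (h1 : ∃ x ∈ S, a x = 1) :
    (part S a).card = firstFail S a := by
  obtain ⟨x, hx, hx1⟩ := h1
  obtain ⟨g1, g2, g3, g4⟩ := firstFail_spec S a ⟨x, hx⟩
  apply le_antisymm g2
  rcases Nat.lt_or_ge (firstFail S a) 2 with h | h
  · have e : firstFail S a = 1 := by omega
    rw [e]
    exact Finset.card_pos.mpr ⟨x, mem_filter.mpr ⟨hx, hx1.le⟩⟩
  · have h2 := g4 (firstFail S a - 1) (by omega) (by omega)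
    have h3 : (S.filter (fun x => a x ≤ firstFail S a - 1)).card ≤
        (S.filter (fun x => a x ≤ firstFail S a)).card := by
      apply Finset.card_le_card
      intro y hy
      rw [mem_filter] at hy ⊢
      exact ⟨hy.1, by omega⟩
    omega

/-- The classification of all functions. -/
theorem classify (q M : ℕ) (S : Finset α) (hM : S.card ≤ M) :
    ∑ a ∈ FF S 0 M, wt q M S a = ∑ a ∈ FF S 1 M, wt q M S a +
      ∑ X ∈ S.powerset.filter (fun X => X.Nonempty),
        (∑ a ∈ primes X, wt q M X a) * (∑ a ∈ FF (S \ X) X.card M, wt q M (S \ X) a) := by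
  classical
  have h1 : FF S 0 M = (FF S 0 M).filter (fun a => ¬ ∃ x ∈ S, a x = 1) ∪
      (FF S 0 M).filter (fun a => ∃ x ∈ S, a x = 1) := by
    rw [Finset.union_comm]
    exact (Finset.filter_union_filter_not_eq _ _).symm
  rw [h1, Finset.sum_union (Finset.disjoint_filter_filter_not _ _ _).symm]
  congr 1
  · congr 1
    ext a
    rw [mem_filter, mem_FF, mem_FF]
    constructor
    · rintro ⟨⟨h2, h3⟩, h4⟩
      refine ⟨fun x hx => ⟨?_, (h2 x hx).2⟩, h3⟩
      have h5 := (h2 x hx).1
      have h6 : a x ≠ 1 := fun e => h4 ⟨x, hx, e⟩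
      omega
    · rintro ⟨h2, h3⟩
      refine ⟨⟨fun x hx => ⟨by have := (h2 x hx).1; omega, (h2 x hx).2⟩, h3⟩, ?_⟩
      rintro ⟨x, hx, e⟩
      have := (h2 x hx).1
      omega
  · have h2 : ∑ X ∈ S.powerset.filter (fun X => X.Nonempty),
        (∑ a ∈ primes X, wt q M X a) * (∑ a ∈ FF (S \ X) X.card M, wt q M (S \ X) a) =
        ∑ X ∈ S.powerset.filter (fun X => X.Nonempty),
          ∑ p ∈ primes X ×ˢ FF (S \ X) X.card M, wt q M X p.1 * wt q M (S \ X) p.2 := by
      refine Finset.sum_congr rfl fun X _ => ?_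
      rw [Finset.sum_mul_sum, Finset.sum_product]
    rw [h2, Finset.sum_sigma']
    refine Finset.sum_bij' (fun a _ => ⟨part S a, (cut (part S a) a, cut (S \ part S a) a)⟩)
      (fun z _ => fun x => z.2.1 x + z.2.2 x) ?_ ?_ ?_ ?_ ?_
    · intro a ha
      rw [mem_filter, mem_FF] at ha
      obtain ⟨⟨h3, h4⟩, x, hx, hx1⟩ := ha
      have hpos : ∀ x ∈ S, 0 < a x := fun x hx => (h3 x hx).1
      have hps := part_spec S a hpos ⟨x, hx, hx1⟩
      obtain ⟨g1, g2, g3, g4⟩ := firstFail_spec S a ⟨x, hx⟩
      simp only [mem_sigma, mem_filter, mem_powerset, mem_product, mem_primes, mem_FF]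
      refine ⟨⟨Finset.filter_subset _ _, ?_⟩, ⟨?_, ?_, ?_⟩, ?_, ?_⟩
      · rw [← Finset.card_pos, hps]
        omega
      · intro y hy
        rw [cut_mem _ _ _ hy, hps]
        unfold part at hy
        rw [mem_filter] at hy
        exact ⟨hpos y hy.1, hy.2⟩
      · intro y hy
        exact cut_notMem _ _ _ hy
      · intro j hj1 hj2
        rw [hps] at hj2
        refine le_trans (g4 j hj1 hj2) (Finset.card_le_card ?_)
        intro y hy
        rw [mem_filter] at hy ⊢
        have hyp : y ∈ part S a := by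
          unfold part
          rw [mem_filter]
          exact ⟨hy.1, by omega⟩
        exact ⟨hyp, by rw [cut_mem _ _ _ hyp]; exact hy.2⟩
      · intro y hy
        rw [cut_mem _ _ _ hy, hps]
        rw [mem_sdiff] at hy
        refine ⟨?_, (h3 y hy.1).2⟩
        by_contra hcon
        apply hy.2
        unfold part
        rw [mem_filter]
        exact ⟨hy.1, by omega⟩
      · intro y hy
        exact cut_notMem _ _ _ hy
    · rintro ⟨X, a₁, a₂⟩ hz
      simp only [mem_sigma, mem_filter, mem_powerset, mem_product, mem_primes, mem_FF] at hz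
      obtain ⟨⟨hX, hne⟩, ⟨h3, h4, h5⟩, h6, h7⟩ := hz
      have hcX := Finset.card_pos.mpr hne
      have hcS := Finset.card_le_card hX
      rw [mem_filter, mem_FF]
      refine ⟨⟨?_, ?_⟩, ?_⟩
      · intro x hx
        by_cases hxX : x ∈ X
        · have e := h7 x (fun h => (mem_sdiff.mp h).2 hxX)
          have := h3 x hxX
          simp only [e]
          omega
        · have e := h4 x hxX
          have := h6 x (mem_sdiff.mpr ⟨hx, hxX⟩)
          simp only [e]
          omega
      · intro x hx
        simp only [h4 x (fun h => hx (hX h)), h7 x (fun h => hx (mem_sdiff.mp h).1)]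
      · rcases Nat.lt_or_ge X.card 2 with h | h
        · obtain ⟨x, hx⟩ := hne
          refine ⟨x, hX hx, ?_⟩
          have e := h7 x (fun h => (mem_sdiff.mp h).2 hx)
          have := h3 x hx
          simp only [e]
          omega
        · have h8 := h5 1 le_rfl (by omega)
          obtain ⟨x, hx⟩ := Finset.card_pos.mp (show 0 < (X.filter (fun x => a₁ x ≤ 1)).card by omega)
          rw [mem_filter] at hx
          refine ⟨x, hX hx.1, ?_⟩
          have e := h7 x (fun h => (mem_sdiff.mp h).2 hx.1)
          have := h3 x hx.1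
          simp only [e]
          omega
    · intro a ha
      rw [mem_filter, mem_FF] at ha
      obtain ⟨⟨h3, h4⟩, _⟩ := ha
      funext x
      simp only [cut, mem_sdiff]
      by_cases hx : x ∈ part S a
      · simp [hx]
      · by_cases hxS : x ∈ S
        · simp [hx, hxS]
        · simp [hx, hxS, h4 x hxS]
    · rintro ⟨X, a₁, a₂⟩ hz
      simp only [mem_sigma, mem_filter, mem_powerset, mem_product, mem_primes, mem_FF] at hz
      obtain ⟨⟨hX, hne⟩, ⟨h3, h4, h5⟩, h6, h7⟩ := hz
      have hcX := Finset.card_pos.mpr hne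
      have hfilter : ∀ j, j ≤ X.card → S.filter (fun x => a₁ x + a₂ x ≤ j) =
          X.filter (fun x => a₁ x ≤ j) := by
        intro j hj
        ext x
        rw [mem_filter, mem_filter]
        constructor
        · rintro ⟨hx, hx2⟩
          by_cases hxX : x ∈ X
          · exact ⟨hxX, by omega⟩
          · have := (h6 x (mem_sdiff.mpr ⟨hx, hxX⟩)).1
            omega
        · rintro ⟨hx, hx2⟩
          have e := h7 x (fun h => (mem_sdiff.mp h).2 hx)
          exact ⟨hX hx, by omega⟩
      have hff : firstFail S (fun x => a₁ x + a₂ x) = X.card := by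
        apply firstFail_eq _ _ _ hcX
        · rw [hfilter _ le_rfl]
          exact Finset.card_filter_le _ _
        · intro j hj1 hj2
          rw [hfilter j hj2.le]
          exact h5 j hj1 hj2
      have hpart : part S (fun x => a₁ x + a₂ x) = X := by
        unfold part
        rw [hff, hfilter _ le_rfl]
        exact Finset.filter_true_of_mem (fun x hx => (h3 x hx).2)
      have e1 : cut X (fun x => a₁ x + a₂ x) = a₁ := by
        funext x
        by_cases hx : x ∈ X
        · rw [cut_mem _ _ _ hx]
          have e := h7 x (fun h => (mem_sdiff.mp h).2 hx)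
          simp only [e, add_zero]
        · rw [cut_notMem _ _ _ hx, h4 x hx]
      have e2 : cut (S \ X) (fun x => a₁ x + a₂ x) = a₂ := by
        funext x
        by_cases hx : x ∈ S \ X
        · rw [cut_mem _ _ _ hx]
          simp only [h4 x (mem_sdiff.mp hx).2, zero_add]
        · rw [cut_notMem _ _ _ hx, h7 x hx]
      simp only [hpart, e1, e2]
    · intro a ha
      simp only [wt]
      have hsub : part S a ⊆ S := Finset.filter_subset _ _
      rw [← Finset.prod_sdiff hsub, mul_comm]
      congr 1
      · refine Finset.prod_congr rfl fun x hx => ?_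
        rw [cut_mem _ _ _ hx]
      · refine Finset.prod_congr rfl fun x hx => ?_
        rw [cut_mem _ _ _ hx]

end Q162Sph
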