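import Mathlib.Topology.Algebra.Polynomial
import Pool.Agent.Q162.Sph.Park
import Pool.Agent.Q162.Sph.Comp

/-!
# The two enumerators agree
-/

namespace Q162Sph

open Finset

section

variable {α : Type*} [Fintype α] [DecidableEq α]

/-- The enumerator of prime functions by codegree. -/
noncomputable def VV (q : ℕ) (X : Finset α) : ℕ :=
  ∑ a ∈ primes X, q ^ (X.card.choose 2 + 1 - ∑ x ∈ X, a x)

omit [Fintype α] [DecidableEq α] in
theorem prime_sum_le (X : Finset α) (hX : X.Nonempty) (a : α → ℕ) (h : IsPrimeOn X a) :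
    ∑ x ∈ X, a x ≤ X.card.choose 2 + 1 := by
  obtain ⟨k, hk⟩ : ∃ k, X.card = k + 1 := ⟨X.card - 1, by have := Finset.card_pos.mpr hX; omega⟩
  have h1 : ∑ x ∈ X, a x = ∑ j ∈ range (k + 1), (X.filter (fun x => j < a x)).card := by
    have h2 : ∀ x ∈ X, a x = ∑ j ∈ range (k + 1), if j < a x then 1 else 0 := by
      intro x hx
      have h3 := (h.1 x hx).2
      rw [← Finset.sum_filter, Finset.sum_const, smul_eq_mul, mul_one]
      have : (range (k + 1)).filter (fun j => j < a x) = range (a x) := by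
        ext j
        rw [mem_filter, mem_range, mem_range]
        omega
      rw [this, card_range]
    rw [Finset.sum_congr rfl h2, Finset.sum_comm]
    refine Finset.sum_congr rfl fun j _ => ?_
    rw [Finset.card_filter]
  have h4 : ∀ j ∈ range k, (X.filter (fun x => j + 1 < a x)).card ≤ k - 1 - j := by
    intro j hj
    rw [mem_range] at hj
    have h5 := h.2.2 (j + 1) (by omega) (by omega)
    have h6 := Finset.card_filter_add_card_filter_not (s := X) (fun x => a x ≤ j + 1)
    have h7 : X.filter (fun x => ¬ a x ≤ j + 1) = X.filter (fun x => j + 1 < a x) := by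
      ext x
      rw [mem_filter, mem_filter, not_le]
    rw [h7] at h6
    omega
  have h8 : (X.filter (fun x => 0 < a x)).card ≤ k + 1 := by
    rw [← hk]
    exact Finset.card_filter_le _ _
  rw [h1, Finset.sum_range_succ']
  have h9 := Finset.sum_le_sum h4
  rw [Finset.sum_range_reflect (fun j => j) k, Finset.sum_range_id, ← Nat.choose_two_right] at h9
  have hch : (k + 1).choose 2 = k + k.choose 2 := by
    rw [Nat.choose_succ_succ' k 1, Nat.choose_one_right]
  rw [hk, hch]
  omega

theorem wt_eq (q M : ℕ) (X : Finset α) (hX : X.Nonempty) (hM : X.card ≤ M) (a : α → ℕ)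
    (h : IsPrimeOn X a) :
    wt q M X a * q ^ (X.card.choose 2 + 1) =
      q ^ (M * X.card) * q ^ (X.card.choose 2 + 1 - ∑ x ∈ X, a x) := by
  have h1 := prime_sum_le X hX a h
  have h2 : ∑ x ∈ X, (M - a x) + ∑ x ∈ X, a x = M * X.card := by
    rw [← Finset.sum_add_distrib]
    have : ∀ x ∈ X, M - a x + a x = M := by
      intro x hx
      have := (h.1 x hx).2
      omega
    rw [Finset.sum_congr rfl this, Finset.sum_const, smul_eq_mul, mul_comm]
  unfold wt
  rw [Finset.prod_pow_eq_pow_sum, ← pow_add, ← pow_add]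
  congr 1
  omega

theorem sum_wt_eq (q M : ℕ) (X : Finset α) (hX : X.Nonempty) (hM : X.card ≤ M) :
    (∑ a ∈ primes X, wt q M X a) * q ^ (X.card.choose 2 + 1) = q ^ (M * X.card) * VV q X := by
  unfold VV
  rw [Finset.sum_mul, Finset.mul_sum]
  refine Finset.sum_congr rfl fun a ha => ?_
  exact wt_eq q M X hX hM a ((mem_primes X a).mp ha)

theorem choose_two_add (m k : ℕ) : (m + k).choose 2 = m.choose 2 + m * k + k.choose 2 := by
  induction k with
  | zero => simp
  | succ k ih =>
    rw [← add_assoc, Nat.choose_succ_succ' (m + k) 1, Nat.choose_succ_succ' k 1, ih,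
      Nat.choose_one_right, Nat.choose_one_right]
    ring

/-- The rescaled classification identity. -/
theorem classify_real (t : ℕ) (ht : 1 ≤ t) (S : Finset α) (M : ℕ) (hM : S.card ≤ M) (hS : S.Nonempty) :
    (1 - (((t : ℝ) + 1) ^ M)⁻¹) ^ S.card - ((((t : ℝ) + 1)⁻¹ - (((t : ℝ) + 1) ^ M)⁻¹)) ^ S.card
      - ∑ X ∈ S.powerset.filter (fun X => X.Nonempty), (t : ℝ) ^ X.card * (VV (t + 1) X : ℝ) *
          (((t : ℝ) + 1) ^ (X.card.choose 2 + 1))⁻¹ *
          ((((t : ℝ) + 1) ^ X.card)⁻¹ - (((t : ℝ) + 1) ^ M)⁻¹) ^ (S.card - X.card) = 0 := by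
  set q : ℝ := (t : ℝ) + 1 with hq
  have ht' : (1 : ℝ) ≤ t := by exact_mod_cast ht
  have hq0 : q ≠ 0 := by
    rw [hq]
    positivity
  set z : ℝ := (q ^ M)⁻¹ with hz
  have hzq : q ^ M * z = 1 := mul_inv_cancel₀ (pow_ne_zero _ hq0)
  set G : ℕ → ℝ := fun k => ∑ i ∈ range k, q ^ i with hG
  have hGk : ∀ k, (t : ℝ) * G k = q ^ k - 1 := by
    intro k
    have := geom_sum_mul q k
    rw [hG]
    simp only
    rw [← this, hq]
    ring
  have hGm : ∀ m, m ≤ M → (t : ℝ) * z * G (M - m) = (q ^ m)⁻¹ - z := by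
    intro m hm
    have h1 : (t : ℝ) * z * G (M - m) = z * (t * G (M - m)) := by ring
    rw [h1, hGk, mul_sub, mul_one]
    congr 1
    apply eq_inv_of_mul_eq_one_left
    rw [mul_assoc, ← pow_add, Nat.sub_add_cancel hm, mul_comm]
    exact hzq
  have hcl := classify (t + 1) M S hM
  rw [sum_FF, sum_FF] at hcl
  have hcl2 : G M ^ S.card = G (M - 1) ^ S.card +
      ∑ X ∈ S.powerset.filter (fun X => X.Nonempty),
        (q ^ (M * X.card) * (VV (t + 1) X : ℝ) * (q ^ (X.card.choose 2 + 1))⁻¹) *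
          G (M - X.card) ^ (S.card - X.card) := by
    have h2 := congrArg (fun n : ℕ => (n : ℝ)) hcl
    push_cast at h2
    rw [Nat.sub_zero] at h2
    rw [hG]
    simp only
    rw [hq]
    refine h2.trans ?_
    congr 1
    refine Finset.sum_congr rfl fun X hX => ?_
    rw [mem_filter, mem_powerset] at hX
    have h3 := sum_wt_eq (t + 1) M X hX.2 ((Finset.card_le_card hX.1).trans hM)
    have h4 := congrArg (fun n : ℕ => (n : ℝ)) h3
    push_cast at h4
    have h5 := congrArg (fun n : ℕ => (n : ℝ)) (sum_FF (t + 1) M X.card (S \ X))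
    push_cast at h5
    rw [h5, Finset.card_sdiff_of_subset hX.1]
    congr 1
    rw [← hq] at h4 ⊢
    rw [eq_mul_inv_iff_mul_eq₀ (pow_ne_zero _ hq0)]
    exact h4
  have h6 : ((t : ℝ) * z) ^ S.card * G M ^ S.card = (1 - z) ^ S.card := by
    rw [← mul_pow]
    have := hGm 0 (Nat.zero_le _)
    rw [Nat.sub_zero, pow_zero, inv_one] at this
    rw [this]
  have h7 : ((t : ℝ) * z) ^ S.card * G (M - 1) ^ S.card = (q⁻¹ - z) ^ S.card := by
    rw [← mul_pow]
    have hcS := Finset.card_pos.mpr hS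
    have := hGm 1 (by omega)
    rw [pow_one] at this
    rw [this]
  rw [← h6, ← h7, hcl2, mul_add, add_sub_cancel_left, Finset.mul_sum, ← Finset.sum_sub_distrib]
  apply Finset.sum_eq_zero
  intro X hX
  rw [mem_filter, mem_powerset] at hX
  have hcX := Finset.card_le_card hX.1
  rw [← hGm X.card (hcX.trans hM)]
  have h8 : ((t : ℝ) * z) ^ S.card = ((t : ℝ) * z) ^ X.card * ((t : ℝ) * z) ^ (S.card - X.card) := by
    rw [← pow_add]
    congr 1
    omega
  have h9 : z ^ X.card * q ^ (M * X.card) = 1 := by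
    rw [pow_mul, ← mul_pow, mul_comm, hzq, one_pow]
  rw [h8, mul_pow (t * z : ℝ), mul_pow (t : ℝ) z X.card]
  linear_combination ((t : ℝ) ^ X.card * ((t : ℝ) * z) ^ (S.card - X.card) *
    (VV (t + 1) X : ℝ) * (q ^ (X.card.choose 2 + 1))⁻¹ * G (M - X.card) ^ (S.card - X.card)) * h9

/-- The component identity for prime functions. -/
theorem VV_identity (t : ℕ) (ht : 1 ≤ t) (S : Finset α) (hS : S.Nonempty) :
    ∑ X ∈ S.powerset.filter (fun X => X.Nonempty), t ^ X.card * VV (t + 1) X *
        (t + 1) ^ ((S.card - X.card).choose 2)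
      + (t + 1) ^ ((S.card - 1).choose 2) = (t + 1) ^ (S.card + (S.card - 1).choose 2) := by
  have ht' : (1 : ℝ) ≤ t := by exact_mod_cast ht
  have hq0 : ((t : ℝ) + 1) ≠ 0 := by positivity
  set f : ℝ → ℝ := fun z => (1 - z) ^ S.card - ((((t : ℝ) + 1)⁻¹ - z)) ^ S.card
      - ∑ X ∈ S.powerset.filter (fun X => X.Nonempty), (t : ℝ) ^ X.card * (VV (t + 1) X : ℝ) *
          (((t : ℝ) + 1) ^ (X.card.choose 2 + 1))⁻¹ *
          ((((t : ℝ) + 1) ^ X.card)⁻¹ - z) ^ (S.card - X.card) with hf
  have hcont : Continuous f := by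
    rw [hf]
    fun_prop
  have hlim : Filter.Tendsto (fun M : ℕ => (((t : ℝ) + 1) ^ M)⁻¹) Filter.atTop (nhds 0) := by
    have h1 : Filter.Tendsto (fun M : ℕ => (((t : ℝ) + 1)⁻¹) ^ M) Filter.atTop (nhds 0) := by
      apply tendsto_pow_atTop_nhds_zero_of_lt_one
      · positivity
      · rw [inv_lt_one₀ (by positivity)]
        linarith
    simpa only [inv_pow] using h1
  have h0 : f 0 = 0 := by
    have h1 : Filter.Tendsto (fun M : ℕ => f (((t : ℝ) + 1) ^ M)⁻¹) Filter.atTop (nhds (f 0)) :=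
      (hcont.tendsto 0).comp hlim
    have h2 : Filter.Tendsto (fun M : ℕ => f (((t : ℝ) + 1) ^ M)⁻¹) Filter.atTop (nhds 0) := by
      apply tendsto_const_nhds.congr'
      filter_upwards [Filter.eventually_ge_atTop S.card] with M hM
      exact (classify_real t ht S M hM hS).symm
    exact tendsto_nhds_unique h1 h2
  have hn := Finset.card_pos.mpr hS
  have hc : S.card.choose 2 + 1 = S.card + (S.card - 1).choose 2 := by
    obtain ⟨m, hm⟩ : ∃ m, S.card = m + 1 := ⟨S.card - 1, by omega⟩
    rw [hm, Nat.choose_succ_succ' m 1, Nat.choose_one_right, Nat.add_sub_cancel]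
    ring
  have hreal : (∑ X ∈ S.powerset.filter (fun X => X.Nonempty), (t : ℝ) ^ X.card *
        (VV (t + 1) X : ℝ) * ((t : ℝ) + 1) ^ ((S.card - X.card).choose 2))
      + ((t : ℝ) + 1) ^ ((S.card - 1).choose 2) =
      ((t : ℝ) + 1) ^ (S.card + (S.card - 1).choose 2) := by
    rw [hf] at h0
    simp only [sub_zero, one_pow] at h0
    have h3 : ((t : ℝ) + 1) ^ (S.card.choose 2 + 1) * (1 - (((t : ℝ) + 1)⁻¹) ^ S.card -
        ∑ X ∈ S.powerset.filter (fun X => X.Nonempty), (t : ℝ) ^ X.card * (VV (t + 1) X : ℝ) *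
          (((t : ℝ) + 1) ^ (X.card.choose 2 + 1))⁻¹ *
          (((t : ℝ) + 1) ^ X.card)⁻¹ ^ (S.card - X.card)) = 0 := by
      rw [h0, mul_zero]
    rw [mul_sub, mul_sub, mul_one, Finset.mul_sum, hc] at h3
    have h4 : ((t : ℝ) + 1) ^ (S.card + (S.card - 1).choose 2) * (((t : ℝ) + 1)⁻¹) ^ S.card =
        ((t : ℝ) + 1) ^ ((S.card - 1).choose 2) := by
      rw [pow_add, inv_pow]
      field_simp
    have h5 : ∀ X ∈ S.powerset.filter (fun X => X.Nonempty),
        ((t : ℝ) + 1) ^ (S.card + (S.card - 1).choose 2) * ((t : ℝ) ^ X.card *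
          (VV (t + 1) X : ℝ) * (((t : ℝ) + 1) ^ (X.card.choose 2 + 1))⁻¹ *
          (((t : ℝ) + 1) ^ X.card)⁻¹ ^ (S.card - X.card)) =
        (t : ℝ) ^ X.card * (VV (t + 1) X : ℝ) * ((t : ℝ) + 1) ^ ((S.card - X.card).choose 2) := by
      intro X hX
      rw [mem_filter, mem_powerset] at hX
      have hcX := Finset.card_le_card hX.1
      have h6 := choose_two_add X.card (S.card - X.card)
      rw [Nat.add_sub_cancel' hcX] at h6
      have h7 : S.card + (S.card - 1).choose 2 = (X.card.choose 2 + 1) +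
          X.card * (S.card - X.card) + (S.card - X.card).choose 2 := by
        rw [← hc, h6]
        ring
      rw [h7, pow_add, pow_add, inv_pow, ← pow_mul]
      field_simp
    rw [Finset.sum_congr rfl h5, h4] at h3
    linarith
  exact_mod_cast hreal

end

variable {α : Type*} [Fintype α] [LinearOrder α]

omit [Fintype α] in
theorem UU_empty (q : ℕ) : UU q (∅ : Finset α) = 0 := by
  unfold UU
  rw [sum_empty]

theorem UU_eq_VV (t : ℕ) (ht : 1 ≤ t) (n : ℕ) : ∀ X : Finset α, X.card = n → X.Nonempty →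
    UU (t + 1) X = VV (t + 1) X := by
  induction n using Nat.strong_induction_on with
  | _ n ih =>
    intro S hS hne
    have h1 := UU_identity t S
    have h2 := VV_identity t ht S hne
    have h3 : ∑ X ∈ S.powerset, t ^ X.card * UU (t + 1) X * (t + 1) ^ ((S \ X).card.choose 2) =
        ∑ X ∈ S.powerset.filter (fun X => X.Nonempty), t ^ X.card * UU (t + 1) X *
          (t + 1) ^ ((S.card - X.card).choose 2) := by
      rw [Finset.sum_filter]
      refine Finset.sum_congr rfl fun X hX => ?_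
      rw [mem_powerset] at hX
      split_ifs with h
      · rw [Finset.card_sdiff_of_subset hX]
      · rw [Finset.not_nonempty_iff_eq_empty] at h
        rw [h, UU_empty]
        ring
    rw [h3] at h1
    have hSmem : S ∈ S.powerset.filter (fun X => X.Nonempty) :=
      mem_filter.mpr ⟨mem_powerset_self S, hne⟩
    have h4 : ∑ X ∈ S.powerset.filter (fun X => X.Nonempty), t ^ X.card * UU (t + 1) X *
          (t + 1) ^ ((S.card - X.card).choose 2) =
        ∑ X ∈ S.powerset.filter (fun X => X.Nonempty), t ^ X.card * VV (t + 1) X *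
          (t + 1) ^ ((S.card - X.card).choose 2) := by
      omega
    rw [← Finset.add_sum_erase _ _ hSmem, ← Finset.add_sum_erase _ _ hSmem] at h4
    have h5 : ∑ X ∈ (S.powerset.filter (fun X => X.Nonempty)).erase S, t ^ X.card *
          UU (t + 1) X * (t + 1) ^ ((S.card - X.card).choose 2) =
        ∑ X ∈ (S.powerset.filter (fun X => X.Nonempty)).erase S, t ^ X.card * VV (t + 1) X *
          (t + 1) ^ ((S.card - X.card).choose 2) := by
      refine Finset.sum_congr rfl fun X hX => ?_
      rw [mem_erase, mem_filter, mem_powerset] at hX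
      have hlt : X.card < n := by
        rw [← hS]
        exact Finset.card_lt_card (Finset.ssubset_iff_subset_ne.mpr ⟨hX.2.1, hX.1⟩)
      rw [ih X.card hlt X rfl hX.2.2]
    rw [h5, Nat.sub_self] at h4
    have h6 := Nat.add_right_cancel h4
    simp only [Nat.choose_zero_succ, pow_zero, mul_one] at h6
    have h7 : 0 < t ^ S.card := pow_pos (by omega) _
    exact Nat.eq_of_mul_eq_mul_left h7 h6

end Q162Sph
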