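import Mathlib.Data.Finset.Powerset
import Mathlib.Data.Finset.Prod
import Mathlib.Data.Finset.Max
import Mathlib.Algebra.BigOperators.Ring.Finset
import Mathlib.Tactic

/-!
# Rooted forests as ancestor relations

A rooted forest on a finite set `S` of labels is encoded by the set `P` of pairs
`(proper ancestor, descendant)`. We count forests with roots in `R` by inversions.
-/

namespace Q162Sph

open Finset

variable {α : Type*} [LinearOrder α]

/-- `P` is the ancestor relation of a rooted forest on `S` with all roots in `R`. -/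
structure IsForest (S R : Finset α) (P : Finset (α × α)) : Prop where
  sub : ∀ y x, (y, x) ∈ P → y ∈ S ∧ x ∈ S
  irr : ∀ x, (x, x) ∉ P
  trans : ∀ x y z, (x, y) ∈ P → (y, z) ∈ P → (x, z) ∈ P
  chain : ∀ x y z, (x, z) ∈ P → (y, z) ∈ P → x = y ∨ (x, y) ∈ P ∨ (y, x) ∈ P
  roots : ∀ x ∈ S, (∀ y, (y, x) ∉ P) → x ∈ R

open Classical in
/-- The finite set of forests. -/
noncomputable def forests (S R : Finset α) : Finset (Finset (α × α)) :=
  (S ×ˢ S).powerset.filter (IsForest S R)

omit [LinearOrder α] in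
theorem mem_forests (S R : Finset α) (P : Finset (α × α)) :
    P ∈ forests S R ↔ IsForest S R P := by
  classical
  unfold forests
  rw [mem_filter, mem_powerset]
  constructor
  · exact fun h => h.2
  · intro h
    refine ⟨?_, h⟩
    rintro ⟨y, x⟩ hz
    exact mem_product.mpr (h.sub y x hz)

/-- The number of inversions: ancestors larger than their descendants. -/
def inv (P : Finset (α × α)) : ℕ := (P.filter (fun z => z.2 < z.1)).card

/-- The inversion enumerator. -/
noncomputable def AA (q : ℕ) (S R : Finset α) : ℕ := ∑ P ∈ forests S R, q ^ inv P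

theorem AA_congr (q : ℕ) (S R R' : Finset α) (h : ∀ x ∈ S, x ∈ R ↔ x ∈ R') :
    AA q S R = AA q S R' := by
  unfold AA
  congr 1
  ext P
  rw [mem_forests, mem_forests]
  constructor
  · intro hP
    exact ⟨hP.sub, hP.irr, hP.trans, hP.chain, fun x hx hy => (h x hx).mp (hP.roots x hx hy)⟩
  · intro hP
    exact ⟨hP.sub, hP.irr, hP.trans, hP.chain, fun x hx hy => (h x hx).mpr (hP.roots x hx hy)⟩

theorem forests_empty (R : Finset α) : forests (∅ : Finset α) R = {∅} := by
  ext P
  rw [mem_forests, mem_singleton]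
  constructor
  · intro h
    rw [Finset.eq_empty_iff_forall_notMem]
    rintro ⟨y, x⟩ hz
    exact absurd (h.sub y x hz).1 (Finset.notMem_empty _)
  · rintro rfl
    exact ⟨fun y x h => absurd h (Finset.notMem_empty _), fun x h => absurd h (Finset.notMem_empty _),
      fun x y z h => absurd h (Finset.notMem_empty _), fun x y z h => absurd h (Finset.notMem_empty _),
      fun x h => absurd h (Finset.notMem_empty _)⟩

theorem AA_empty (q : ℕ) (R : Finset α) : AA q (∅ : Finset α) R = 1 := by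
  unfold AA
  rw [forests_empty, sum_singleton]
  simp [inv]

/-- A nonempty forest has a root. -/
theorem exists_root (S R : Finset α) (P : Finset (α × α)) (h : IsForest S R P) (hS : S.Nonempty) :
    ∃ x ∈ S, ∀ y, (y, x) ∉ P := by
  obtain ⟨x, hx, hmin⟩ := Finset.exists_min_image S
    (fun x => (P.filter (fun z => z.2 = x)).card) hS
  refine ⟨x, hx, ?_⟩
  intro y hy
  have h1 := hmin y (h.sub y x hy).1
  have h2 : (P.filter (fun z => z.2 = y)).card < (P.filter (fun z => z.2 = x)).card := by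
    have h3 : (P.filter (fun z => z.2 = y)).card = ((P.filter (fun z => z.2 = y)).image Prod.fst).card := by
      rw [Finset.card_image_of_injOn]
      rintro ⟨a, b⟩ ha ⟨c, d⟩ hc e
      simp only [coe_filter, Set.mem_ofPred_eq] at ha hc
      simp only at e
      rw [e, ha.2, hc.2]
    have h4 : (P.filter (fun z => z.2 = x)).card = ((P.filter (fun z => z.2 = x)).image Prod.fst).card := by
      rw [Finset.card_image_of_injOn]
      rintro ⟨a, b⟩ ha ⟨c, d⟩ hc e
      simp only [coe_filter, Set.mem_ofPred_eq] at ha hc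
      simp only at e
      rw [e, ha.2, hc.2]
    rw [h3, h4]
    apply Finset.card_lt_card
    rw [Finset.ssubset_iff_of_subset]
    · refine ⟨y, ?_, ?_⟩
      · rw [mem_image]
        exact ⟨(y, x), by rw [mem_filter]; exact ⟨hy, rfl⟩, rfl⟩
      · rw [mem_image]
        rintro ⟨⟨a, b⟩, hab, e⟩
        rw [mem_filter] at hab
        simp only at e hab
        rw [e, hab.2] at hab
        exact h.irr y hab.1
    · intro z hz
      rw [mem_image] at hz ⊢
      obtain ⟨⟨a, b⟩, hab, e⟩ := hz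
      rw [mem_filter] at hab
      simp only at e hab
      subst e
      rw [hab.2] at hab
      exact ⟨(a, x), by rw [mem_filter]; exact ⟨h.trans a y x hab.1 hy, rfl⟩, rfl⟩
  omega

theorem AA_no_roots (q : ℕ) (S R : Finset α) (hS : S.Nonempty) (h : ∀ x ∈ S, x ∉ R) :
    AA q S R = 0 := by
  unfold AA
  have : forests S R = ∅ := by
    rw [Finset.eq_empty_iff_forall_notMem]
    intro P hP
    rw [mem_forests] at hP
    obtain ⟨x, hx, hy⟩ := exists_root S R P hP hS
    exact h x hx (hP.roots x hx hy)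
  rw [this, sum_empty]

/-- Restriction of a relation to a set. -/
def res (P : Finset (α × α)) (Y : Finset α) : Finset (α × α) :=
  P.filter (fun z => z.1 ∈ Y ∧ z.2 ∈ Y)

theorem mem_res (P : Finset (α × α)) (Y : Finset α) (y x : α) :
    (y, x) ∈ res P Y ↔ (y, x) ∈ P ∧ y ∈ Y ∧ x ∈ Y := by
  unfold res
  rw [mem_filter]

/-- The descendants of `v`. -/
def desc (P : Finset (α × α)) (v : α) : Finset α := (P.filter (fun z => z.1 = v)).image Prod.snd

theorem mem_desc (P : Finset (α × α)) (v x : α) : x ∈ desc P v ↔ (v, x) ∈ P := by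
  unfold desc
  rw [mem_image]
  constructor
  · rintro ⟨⟨a, b⟩, hab, e⟩
    rw [mem_filter] at hab
    simp only at hab e
    rw [← e, ← hab.2]
    exact hab.1
  · intro h
    exact ⟨(v, x), by rw [mem_filter]; exact ⟨h, rfl⟩, rfl⟩

/-- Gluing. -/
def glue (v : α) (Y : Finset α) (P₁ P₂ : Finset (α × α)) : Finset (α × α) :=
  (P₁ ∪ P₂) ∪ ({v} ×ˢ Y)

theorem mem_glue (v : α) (Y : Finset α) (P₁ P₂ : Finset (α × α)) (y x : α) :
    (y, x) ∈ glue v Y P₁ P₂ ↔ (y, x) ∈ P₁ ∨ (y, x) ∈ P₂ ∨ (y = v ∧ x ∈ Y) := by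
  unfold glue
  rw [mem_union, mem_union, mem_product, mem_singleton, or_assoc]

/-- Forests in which `v` is a root, split at `v`. -/
theorem split_isForest (S R : Finset α) (v : α) (hv : v ∈ S) (hR : v ∉ R) (P : Finset (α × α))
    (hP : IsForest S (insert v R) P) (hroot : ∀ y, (y, v) ∉ P) :
    desc P v ⊆ S.erase v ∧ IsForest (desc P v) (desc P v) (res P (desc P v)) ∧
      IsForest (S.erase v \ desc P v) R (res P (S.erase v \ desc P v)) := by
  refine ⟨?_, ⟨?_, ?_, ?_, ?_, ?_⟩, ⟨?_, ?_, ?_, ?_, ?_⟩⟩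
  · intro x hx
    rw [mem_desc] at hx
    rw [mem_erase]
    refine ⟨?_, (hP.sub v x hx).2⟩
    rintro rfl
    exact hP.irr x hx
  · intro y x h
    rw [mem_res] at h
    exact h.2
  · intro x h
    rw [mem_res] at h
    exact hP.irr x h.1
  · intro x y z h1 h2
    rw [mem_res] at h1 h2 ⊢
    exact ⟨hP.trans x y z h1.1 h2.1, h1.2.1, h2.2.2⟩
  · intro x y z h1 h2
    rw [mem_res] at h1 h2
    rcases hP.chain x y z h1.1 h2.1 with h | h | h
    · exact Or.inl h
    · exact Or.inr (Or.inl ((mem_res _ _ _ _).mpr ⟨h, h1.2.1, h2.2.1⟩))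
    · exact Or.inr (Or.inr ((mem_res _ _ _ _).mpr ⟨h, h2.2.1, h1.2.1⟩))
  · intro x hx _
    exact hx
  · intro y x h
    rw [mem_res] at h
    exact h.2
  · intro x h
    rw [mem_res] at h
    exact hP.irr x h.1
  · intro x y z h1 h2
    rw [mem_res] at h1 h2 ⊢
    exact ⟨hP.trans x y z h1.1 h2.1, h1.2.1, h2.2.2⟩
  · intro x y z h1 h2
    rw [mem_res] at h1 h2
    rcases hP.chain x y z h1.1 h2.1 with h | h | h
    · exact Or.inl h
    · exact Or.inr (Or.inl ((mem_res _ _ _ _).mpr ⟨h, h1.2.1, h2.2.1⟩))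
    · exact Or.inr (Or.inr ((mem_res _ _ _ _).mpr ⟨h, h2.2.1, h1.2.1⟩))
  · intro x hx hx2
    rw [mem_sdiff, mem_erase, mem_desc] at hx
    obtain ⟨⟨hxv, hxS⟩, hxd⟩ := hx
    have h1 : ∀ y, (y, x) ∉ P := by
      intro y hy
      have hyS := (hP.sub y x hy).1
      have hyv : y ≠ v := by
        rintro rfl
        exact hxd hy
      have hyd : (v, y) ∉ P := fun h => hxd (hP.trans v y x h hy)
      apply hx2 y
      rw [mem_res]
      refine ⟨hy, ?_, ?_⟩
      · rw [mem_sdiff, mem_erase, mem_desc]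
        exact ⟨⟨hyv, hyS⟩, hyd⟩
      · rw [mem_sdiff, mem_erase, mem_desc]
        exact ⟨⟨hxv, hxS⟩, hxd⟩
    have h2 := hP.roots x hxS h1
    rw [mem_insert] at h2
    rcases h2 with h2 | h2
    · exact absurd h2 hxv
    · exact h2

theorem glue_isForest (S R : Finset α) (v : α) (hv : v ∈ S) (Y : Finset α)
    (hY : Y ⊆ S.erase v) (P₁ P₂ : Finset (α × α)) (h₁ : IsForest Y Y P₁)
    (h₂ : IsForest (S.erase v \ Y) R P₂) :
    IsForest S (insert v R) (glue v Y P₁ P₂) ∧ (∀ y, (y, v) ∉ glue v Y P₁ P₂) := by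
  have hvY : v ∉ Y := fun h => (mem_erase.mp (hY h)).1 rfl
  have hYS : ∀ x ∈ Y, x ∈ S := fun x hx => (mem_erase.mp (hY hx)).2
  have hZS : ∀ x ∈ S.erase v \ Y, x ∈ S ∧ x ≠ v ∧ x ∉ Y := by
    intro x hx
    rw [mem_sdiff, mem_erase] at hx
    exact ⟨hx.1.2, hx.1.1, hx.2⟩
  have hroot : ∀ y, (y, v) ∉ glue v Y P₁ P₂ := by
    intro y hy
    rw [mem_glue] at hy
    rcases hy with h | h | h
    · exact hvY (h₁.sub y v h).2
    · exact (hZS v (h₂.sub y v h).2).2.1 rfl
    · exact hvY h.2
  refine ⟨⟨?_, ?_, ?_, ?_, ?_⟩, hroot⟩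
  · intro y x h
    rw [mem_glue] at h
    rcases h with h | h | h
    · exact ⟨hYS y (h₁.sub y x h).1, hYS x (h₁.sub y x h).2⟩
    · exact ⟨(hZS y (h₂.sub y x h).1).1, (hZS x (h₂.sub y x h).2).1⟩
    · exact ⟨h.1 ▸ hv, hYS x h.2⟩
  · intro x h
    rw [mem_glue] at h
    rcases h with h | h | h
    · exact h₁.irr x h
    · exact h₂.irr x h
    · exact hvY (h.1 ▸ h.2)
  · intro x y z hxy hyz
    rw [mem_glue] at hxy hyz ⊢
    rcases hyz with h | h | h
    · rcases hxy with h' | h' | h'
      · exact Or.inl (h₁.trans x y z h' h)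
      · exact absurd (h₁.sub y z h).1 (hZS y (h₂.sub x y h').2).2.2
      · exact Or.inr (Or.inr ⟨h'.1, (h₁.sub y z h).2⟩)
    · rcases hxy with h' | h' | h'
      · exact absurd (h₁.sub x y h').2 (hZS y (h₂.sub y z h).1).2.2
      · exact Or.inr (Or.inl (h₂.trans x y z h' h))
      · exact absurd h'.2 (hZS y (h₂.sub y z h).1).2.2
    · exfalso
      rw [h.1] at hxy
      rw [← mem_glue] at hxy
      exact hroot x hxy
  · intro x y z hxz hyz
    rw [mem_glue] at hxz hyz
    rcases hxz with h | h | h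
    · rcases hyz with h' | h' | h'
      · rcases h₁.chain x y z h h' with g | g | g
        · exact Or.inl g
        · exact Or.inr (Or.inl ((mem_glue _ _ _ _ _ _).mpr (Or.inl g)))
        · exact Or.inr (Or.inr ((mem_glue _ _ _ _ _ _).mpr (Or.inl g)))
      · exact absurd (h₁.sub x z h).2 (hZS z (h₂.sub y z h').2).2.2
      · right
        right
        rw [mem_glue]
        exact Or.inr (Or.inr ⟨h'.1, (h₁.sub x z h).1⟩)
    · rcases hyz with h' | h' | h'
      · exact absurd (h₁.sub y z h').2 (hZS z (h₂.sub x z h).2).2.2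
      · rcases h₂.chain x y z h h' with g | g | g
        · exact Or.inl g
        · exact Or.inr (Or.inl ((mem_glue _ _ _ _ _ _).mpr (Or.inr (Or.inl g))))
        · exact Or.inr (Or.inr ((mem_glue _ _ _ _ _ _).mpr (Or.inr (Or.inl g))))
      · exact absurd h'.2 (hZS z (h₂.sub x z h).2).2.2
    · rcases hyz with h' | h' | h'
      · right
        left
        rw [mem_glue]
        exact Or.inr (Or.inr ⟨h.1, (h₁.sub y z h').1⟩)
      · exact absurd h.2 (hZS z (h₂.sub y z h').2).2.2
      · exact Or.inl (h.1.trans h'.1.symm)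
  · intro x hx hx2
    rw [mem_insert]
    by_cases hxv : x = v
    · exact Or.inl hxv
    · right
      have hxY : x ∉ Y := by
        intro h
        exact hx2 v ((mem_glue _ _ _ _ _ _).mpr (Or.inr (Or.inr ⟨rfl, h⟩)))
      apply h₂.roots x
      · rw [mem_sdiff, mem_erase]
        exact ⟨⟨hxv, hx⟩, hxY⟩
      · intro y hy
        exact hx2 y ((mem_glue _ _ _ _ _ _).mpr (Or.inr (Or.inl hy)))

theorem glue_split (S R : Finset α) (v : α) (P : Finset (α × α))
    (hP : IsForest S (insert v R) P) (hroot : ∀ y, (y, v) ∉ P) :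
    glue v (desc P v) (res P (desc P v)) (res P (S.erase v \ desc P v)) = P := by
  ext ⟨y, x⟩
  rw [mem_glue, mem_res, mem_res, mem_desc, mem_desc, mem_sdiff, mem_sdiff, mem_erase, mem_erase,
    mem_desc, mem_desc]
  constructor
  · rintro (h | h | h)
    · exact h.1
    · exact h.1
    · rw [h.1]
      exact h.2
  · intro h
    by_cases hyv : y = v
    · right
      right
      exact ⟨hyv, hyv ▸ h⟩
    · have hxv : x ≠ v := by
        rintro rfl
        exact hroot y h
      by_cases hxd : (v, x) ∈ P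
      · left
        refine ⟨h, ?_, hxd⟩
        rcases hP.chain v y x hxd h with g | g | g
        · exact absurd g.symm hyv
        · exact g
        · exact absurd g (hroot y)
      · right
        left
        exact ⟨h, ⟨⟨hyv, (hP.sub y x h).1⟩, fun g => hxd (hP.trans v y x g h)⟩,
          ⟨⟨hxv, (hP.sub y x h).2⟩, hxd⟩⟩

theorem split_glue (S R : Finset α) (v : α) (Y : Finset α)
    (hY : Y ⊆ S.erase v) (P₁ P₂ : Finset (α × α)) (h₁ : IsForest Y Y P₁)
    (h₂ : IsForest (S.erase v \ Y) R P₂) :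
    desc (glue v Y P₁ P₂) v = Y ∧ res (glue v Y P₁ P₂) Y = P₁ ∧
      res (glue v Y P₁ P₂) (S.erase v \ Y) = P₂ := by
  have hvY : v ∉ Y := fun h => (mem_erase.mp (hY h)).1 rfl
  have hZS : ∀ x ∈ S.erase v \ Y, x ∈ S ∧ x ≠ v ∧ x ∉ Y := by
    intro x hx
    rw [mem_sdiff, mem_erase] at hx
    exact ⟨hx.1.2, hx.1.1, hx.2⟩
  refine ⟨?_, ?_, ?_⟩
  · ext x
    rw [mem_desc, mem_glue]
    constructor
    · rintro (h | h | h)
      · exact absurd (h₁.sub v x h).1 hvY
      · exact absurd rfl (hZS v (h₂.sub v x h).1).2.1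
      · exact h.2
    · intro h
      exact Or.inr (Or.inr ⟨rfl, h⟩)
  · ext ⟨y, x⟩
    rw [mem_res, mem_glue]
    constructor
    · rintro ⟨h | h | h, h1, h2⟩
      · exact h
      · exact absurd h1 (hZS y (h₂.sub y x h).1).2.2
      · exact absurd (h.1 ▸ h1) hvY
    · intro h
      exact ⟨Or.inl h, h₁.sub y x h⟩
  · ext ⟨y, x⟩
    rw [mem_res, mem_glue]
    constructor
    · rintro ⟨h | h | h, h1, h2⟩
      · exact absurd (h₁.sub y x h).1 (hZS y h1).2.2
      · exact h
      · exact absurd h.1 (hZS y h1).2.1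
    · intro h
      exact ⟨Or.inr (Or.inl h), h₂.sub y x h⟩

theorem inv_glue (S R : Finset α) (v : α) (Y : Finset α)
    (hY : Y ⊆ S.erase v) (P₁ P₂ : Finset (α × α)) (h₁ : IsForest Y Y P₁)
    (h₂ : IsForest (S.erase v \ Y) R P₂) :
    inv (glue v Y P₁ P₂) = (Y.filter (fun y => y < v)).card + inv P₁ + inv P₂ := by
  have hvY : v ∉ Y := fun h => (mem_erase.mp (hY h)).1 rfl
  have hZS : ∀ x ∈ S.erase v \ Y, x ∈ S ∧ x ≠ v ∧ x ∉ Y := by
    intro x hx
    rw [mem_sdiff, mem_erase] at hx
    exact ⟨hx.1.2, hx.1.1, hx.2⟩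
  unfold inv glue
  rw [filter_union, filter_union, card_union_of_disjoint, card_union_of_disjoint]
  · have : ((({v} : Finset α) ×ˢ Y).filter (fun z => z.2 < z.1)).card
        = (Y.filter (fun y => y < v)).card := by
      rw [← Finset.card_image_of_injective (Y.filter (fun y => y < v))
        (f := fun y => (v, y)) (fun a b h => congrArg Prod.snd h)]
      congr 1
      ext ⟨a, b⟩
      simp only [mem_filter, mem_product, mem_singleton, mem_image, Prod.mk.injEq]
      constructor
      · rintro ⟨⟨h1, h2⟩, h3⟩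
        exact ⟨b, ⟨h2, h1 ▸ h3⟩, h1.symm, rfl⟩
      · rintro ⟨y, ⟨h1, h2⟩, h3, h4⟩
        subst h3
        subst h4
        exact ⟨⟨rfl, h1⟩, h2⟩
    rw [this]
    ring
  · rw [Finset.disjoint_left]
    rintro ⟨a, b⟩ h h'
    rw [mem_filter] at h h'
    exact (hZS a (h₂.sub a b h'.1).1).2.2 (h₁.sub a b h.1).1
  · rw [Finset.disjoint_left]
    rintro ⟨a, b⟩ h h'
    rw [mem_union, mem_filter, mem_filter] at h
    rw [mem_filter, mem_product, mem_singleton] at h'
    simp only at h'
    rcases h with h | h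
    · exact hvY (h'.1.1 ▸ (h₁.sub a b h.1).1)
    · exact (hZS a (h₂.sub a b h.1).1).2.1 h'.1.1

/-- The recursion for the inversion enumerator. -/
theorem AA_insert (q : ℕ) (S R : Finset α) (v : α) (hv : v ∈ S) (hR : v ∉ R) :
    AA q S (insert v R) = AA q S R + ∑ Y ∈ (S.erase v).powerset,
      q ^ (Y.filter (fun y => y < v)).card * AA q Y Y * AA q (S.erase v \ Y) R := by
  classical
  unfold AA
  have h1 : forests S (insert v R) = (forests S (insert v R)).filter (fun P => ∃ y, (y, v) ∈ P) ∪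
      (forests S (insert v R)).filter (fun P => ¬ ∃ y, (y, v) ∈ P) :=
    (Finset.filter_union_filter_not_eq _ _).symm
  rw [h1, Finset.sum_union (Finset.disjoint_filter_filter_not _ _ _)]
  congr 1
  · congr 1
    ext P
    rw [mem_filter, mem_forests, mem_forests]
    constructor
    · rintro ⟨hP, y, hy⟩
      refine ⟨hP.sub, hP.irr, hP.trans, hP.chain, fun x hx hx2 => ?_⟩
      have := hP.roots x hx hx2
      rw [mem_insert] at this
      rcases this with h | h
      · rw [h] at hx2
        exact absurd hy (hx2 y)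
      · exact h
    · intro hP
      refine ⟨⟨hP.sub, hP.irr, hP.trans, hP.chain, fun x hx hx2 =>
        mem_insert_of_mem (hP.roots x hx hx2)⟩, ?_⟩
      by_contra hcon
      push Not at hcon
      exact hR (hP.roots v hv hcon)
  · have h2 : ∑ Y ∈ (S.erase v).powerset, q ^ (Y.filter (fun y => y < v)).card *
        (∑ P ∈ forests Y Y, q ^ inv P) * (∑ P ∈ forests (S.erase v \ Y) R, q ^ inv P) =
        ∑ Y ∈ (S.erase v).powerset, ∑ p ∈ forests Y Y ×ˢ forests (S.erase v \ Y) R,
          q ^ ((Y.filter (fun y => y < v)).card + inv p.1 + inv p.2) := by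
      refine Finset.sum_congr rfl fun Y _ => ?_
      rw [Finset.sum_product, mul_assoc, Finset.sum_mul_sum, Finset.mul_sum]
      refine Finset.sum_congr rfl fun P₁ _ => ?_
      rw [Finset.mul_sum]
      refine Finset.sum_congr rfl fun P₂ _ => ?_
      rw [pow_add, pow_add]
      ring
    rw [h2, Finset.sum_sigma']
    symm
    refine Finset.sum_bij' (fun z _ => glue v z.1 z.2.1 z.2.2)
      (fun P _ => ⟨desc P v, (res P (desc P v), res P (S.erase v \ desc P v))⟩)
      ?_ ?_ ?_ ?_ ?_
    · rintro ⟨Y, P₁, P₂⟩ hz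
      simp only [mem_sigma, mem_powerset, mem_product, mem_forests] at hz
      obtain ⟨hY, h3, h4⟩ := hz
      have h5 := glue_isForest S R v hv Y hY P₁ P₂ h3 h4
      rw [mem_filter, mem_forests]
      exact ⟨h5.1, fun ⟨y, hy⟩ => h5.2 y hy⟩
    · intro P hP
      rw [mem_filter, mem_forests] at hP
      have hroot : ∀ y, (y, v) ∉ P := fun y hy => hP.2 ⟨y, hy⟩
      have h5 := split_isForest S R v hv hR P hP.1 hroot
      simp only [mem_sigma, mem_powerset, mem_product, mem_forests]
      exact h5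
    · rintro ⟨Y, P₁, P₂⟩ hz
      simp only [mem_sigma, mem_powerset, mem_product, mem_forests] at hz
      obtain ⟨hY, h3, h4⟩ := hz
      obtain ⟨e1, e2, e3⟩ := split_glue S R v Y hY P₁ P₂ h3 h4
      simp only [e1, e2, e3]
    · intro P hP
      rw [mem_filter, mem_forests] at hP
      have hroot : ∀ y, (y, v) ∉ P := fun y hy => hP.2 ⟨y, hy⟩
      exact glue_split S R v P hP.1 hroot
    · rintro ⟨Y, P₁, P₂⟩ hz
      simp only [mem_sigma, mem_powerset, mem_product, mem_forests] at hz
      obtain ⟨hY, h3, h4⟩ := hz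
      simp only
      rw [inv_glue S R v Y hY P₁ P₂ h3 h4]

end Q162Sph
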