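import Mathlib.SetTheory.Cardinal.Finite
import Mathlib.Data.Fin.Tuple.Sort
import Mathlib.Logic.Function.Iterate
import Pool.Agent.Q162.Sph.Forest

/-!
# Uprooted trees and their ancestor relations
-/

namespace Q162Sph

open Finset

/-- An uprooted tree with vertex set `Fin n`: a rooted tree, given by its root and the map sending
every non-root vertex to its parent (and the root to itself), such that every vertex reaches the
root by iterating the parent map, and the root is larger than each of its children. -/
structure UprootedTree (n : ℕ) where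
  root : Fin n
  parent : Fin n → Fin n
  parent_root : parent root = root
  reach : ∀ v, ∃ k : ℕ, parent^[k] v = root
  uprooted : ∀ v, v ≠ root → parent v = root → v < root

/-- The pair `(α, β)` is a surface inversion: both are different from the root, `β` is a
descendant of `α` (that is `β ≠ α` and `α` is reached from `β` by iterating the parent map), and
`α > β`. -/
def UprootedTree.IsSurfaceInversion {n : ℕ} (T : UprootedTree n) (α β : Fin n) : Prop :=
  α ≠ T.root ∧ β ≠ T.root ∧ (β ≠ α ∧ ∃ k : ℕ, T.parent^[k] β = α) ∧ β < α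

/-- The number of surface inversions. -/
noncomputable def UprootedTree.surfaceInversions {n : ℕ} (T : UprootedTree n) : ℕ :=
  Nat.card {z : Fin n × Fin n // T.IsSurfaceInversion z.1 z.2}

variable {n : ℕ}

theorem iterate_root (T : UprootedTree n) (k : ℕ) : T.parent^[k] T.root = T.root :=
  Function.iterate_fixed T.parent_root k

theorem cycle_root (T : UprootedTree n) (z : Fin n) (j : ℕ) (hj : 1 ≤ j)
    (h : T.parent^[j] z = z) : z = T.root := by
  obtain ⟨k, hk⟩ := T.reach z
  have h1 : T.parent^[j * k] z = z := by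
    rw [Function.iterate_mul]
    exact Function.iterate_fixed h k
  have h2 : T.parent^[j * k] z = T.root := by
    have hle : k ≤ j * k := Nat.le_mul_of_pos_left k hj
    obtain ⟨m, hm⟩ := Nat.exists_eq_add_of_le hle
    rw [hm, add_comm, Function.iterate_add_apply, hk, iterate_root]
  rw [← h1, h2]

/-- `y` is a proper ancestor of `x`, both different from the root. -/
def UprootedTree.Anc (T : UprootedTree n) (y x : Fin n) : Prop :=
  y ≠ T.root ∧ x ≠ T.root ∧ x ≠ y ∧ ∃ k : ℕ, T.parent^[k] x = y

open Classical in
/-- The ancestor relation as a finite set. -/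
noncomputable def UprootedTree.rel (T : UprootedTree n) : Finset (Fin n × Fin n) :=
  univ.filter (fun z => T.Anc z.1 z.2)

theorem mem_rel (T : UprootedTree n) (y x : Fin n) : (y, x) ∈ T.rel ↔ T.Anc y x := by
  classical
  unfold UprootedTree.rel
  rw [mem_filter]
  exact ⟨fun h => h.2, fun h => ⟨mem_univ _, h⟩⟩

theorem rel_isForest (T : UprootedTree n) :
    IsForest (univ.erase T.root) (univ.filter (fun x => x < T.root)) T.rel := by
  refine ⟨?_, ?_, ?_, ?_, ?_⟩
  · intro y x h
    rw [mem_rel] at h
    exact ⟨mem_erase.mpr ⟨h.1, mem_univ _⟩, mem_erase.mpr ⟨h.2.1, mem_univ _⟩⟩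
  · intro x h
    rw [mem_rel] at h
    exact h.2.2.1 rfl
  · intro x y z hxy hyz
    rw [mem_rel] at hxy hyz ⊢
    obtain ⟨h1, h2, h3, k, hk⟩ := hxy
    obtain ⟨h4, h5, h6, l, hl⟩ := hyz
    have hkl : T.parent^[k + l] z = x := by
      rw [Function.iterate_add_apply, hl, hk]
    refine ⟨h1, h5, ?_, k + l, hkl⟩
    rintro rfl
    have hk1 : 1 ≤ k := by
      rcases Nat.eq_zero_or_pos k with h | h
      · rw [h] at hk
        exact absurd hk h3
      · exact h
    exact h1 (cycle_root T z (k + l) (by omega) hkl)
  · intro x y z hxz hyz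
    rw [mem_rel] at hxz hyz
    obtain ⟨h1, h2, h3, k, hk⟩ := hxz
    obtain ⟨h4, h5, h6, l, hl⟩ := hyz
    by_cases hxy : x = y
    · exact Or.inl hxy
    · right
      rcases Nat.le_total k l with h | h
      · right
        rw [mem_rel]
        refine ⟨h4, h1, hxy, l - k, ?_⟩
        rw [← hk, ← Function.iterate_add_apply, Nat.sub_add_cancel h, hl]
      · left
        rw [mem_rel]
        refine ⟨h1, h4, fun e => hxy e.symm, k - l, ?_⟩
        rw [← hl, ← Function.iterate_add_apply, Nat.sub_add_cancel h, hk]
  · intro x hx hno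
    rw [mem_erase] at hx
    rw [mem_filter]
    refine ⟨mem_univ _, ?_⟩
    by_cases hp : T.parent x = T.root
    · exact T.uprooted x hx.1 hp
    · exfalso
      have hne : x ≠ T.parent x := by
        intro e
        exact hx.1 (cycle_root T x 1 le_rfl e.symm)
      exact hno (T.parent x) ((mem_rel _ _ _).mpr ⟨hp, hx.1, hne, 1, rfl⟩)

theorem parent_mem_rel (T : UprootedTree n) (v : Fin n) (hv : v ≠ T.root)
    (hp : T.parent v ≠ T.root) : (T.parent v, v) ∈ T.rel := by
  rw [mem_rel]
  refine ⟨hp, hv, ?_, 1, rfl⟩
  intro e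
  exact hv (cycle_root T v 1 le_rfl e.symm)

theorem anc_closest (T : UprootedTree n) (v y : Fin n) (h : (y, v) ∈ T.rel) :
    T.parent v ≠ T.root ∧ (y = T.parent v ∨ (y, T.parent v) ∈ T.rel) := by
  rw [mem_rel] at h
  obtain ⟨h1, h2, h3, k, hk⟩ := h
  rcases k with _ | k
  · exact absurd hk h3
  · rw [Function.iterate_succ_apply] at hk
    have hp : T.parent v ≠ T.root := by
      intro e
      rw [e, iterate_root] at hk
      exact h1 hk.symm
    refine ⟨hp, ?_⟩
    by_cases hy : y = T.parent v
    · exact Or.inl hy
    · right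
      rw [mem_rel]
      exact ⟨h1, hp, fun e => hy e.symm, k, hk⟩

theorem parent_eq_of_rel (T T' : UprootedTree n) (hr : T.root = T'.root) (h : T.rel = T'.rel)
    (v : Fin n) : T.parent v = T'.parent v := by
  by_cases hv : v = T.root
  · rw [hv, T.parent_root, hr, T'.parent_root]
  · have hv' : v ≠ T'.root := hr ▸ hv
    by_cases hp : T.parent v = T.root
    · by_cases hp' : T'.parent v = T'.root
      · rw [hp, hp', hr]
      · exfalso
        have h1 := parent_mem_rel T' v hv' hp'
        rw [← h] at h1
        exact (anc_closest T v _ h1).1 hp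
    · have h1 := parent_mem_rel T v hv hp
      have h2 := h1
      rw [h] at h2
      obtain ⟨g1, g2⟩ := anc_closest T' v _ h2
      rcases g2 with g2 | g2
      · exact g2
      · have h3 := parent_mem_rel T' v hv' g1
        have h4 := h3
        rw [← h] at h4
        obtain ⟨g3, g4⟩ := anc_closest T v _ h4
        rcases g4 with g4 | g4
        · exact g4.symm
        · exfalso
          have hF := rel_isForest T
          rw [← h] at g2
          exact hF.irr _ (hF.trans _ _ _ g2 g4)

/-! ### From forests to trees -/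

/-- The proper ancestors. -/
def ancs (P : Finset (Fin n × Fin n)) (v : Fin n) : Finset (Fin n) :=
  univ.filter (fun y => (y, v) ∈ P)

theorem mem_ancs (P : Finset (Fin n × Fin n)) (v y : Fin n) : y ∈ ancs P v ↔ (y, v) ∈ P := by
  unfold ancs
  rw [mem_filter]
  exact ⟨fun h => h.2, fun h => ⟨mem_univ _, h⟩⟩

theorem card_ancs_lt {S R : Finset (Fin n)} {P : Finset (Fin n × Fin n)} (hP : IsForest S R P)
    (y v : Fin n) (h : (y, v) ∈ P) : (ancs P y).card < (ancs P v).card := by
  apply Finset.card_lt_card
  rw [Finset.ssubset_iff_of_subset]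
  · exact ⟨y, (mem_ancs _ _ _).mpr h, fun h' => hP.irr y ((mem_ancs _ _ _).mp h')⟩
  · intro z hz
    rw [mem_ancs] at hz ⊢
    exact hP.trans z y v hz h

theorem exists_closest {S R : Finset (Fin n)} {P : Finset (Fin n × Fin n)} (hP : IsForest S R P)
    (v : Fin n) (h : ∃ y, (y, v) ∈ P) :
    ∃ y, (y, v) ∈ P ∧ ∀ z, (z, v) ∈ P → z = y ∨ (z, y) ∈ P := by
  obtain ⟨y₀, hy₀⟩ := h
  obtain ⟨y, hy, hmax⟩ := Finset.exists_max_image (ancs P v) (fun y => (ancs P y).card)
    ⟨y₀, (mem_ancs _ _ _).mpr hy₀⟩
  rw [mem_ancs] at hy
  refine ⟨y, hy, ?_⟩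
  intro z hz
  rcases hP.chain z y v hz hy with g | g | g
  · exact Or.inl g
  · exact Or.inr g
  · exfalso
    have h1 := card_ancs_lt hP y z g
    have h2 := hmax z ((mem_ancs _ _ _).mpr hz)
    omega

open Classical in
/-- The parent map of a forest hung below `r`. -/
noncomputable def par (r : Fin n) (P : Finset (Fin n × Fin n)) (v : Fin n) : Fin n :=
  if h : ∃ y, (y, v) ∈ P ∧ ∀ z, (z, v) ∈ P → z = y ∨ (z, y) ∈ P then h.choose else r

theorem par_cases {S R : Finset (Fin n)} {P : Finset (Fin n × Fin n)} (hP : IsForest S R P)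
    (r v : Fin n) : (par r P v = r ∧ ∀ y, (y, v) ∉ P) ∨
      ((par r P v, v) ∈ P ∧ ∀ z, (z, v) ∈ P → z = par r P v ∨ (z, par r P v) ∈ P) := by
  unfold par
  split_ifs with h
  · right
    exact h.choose_spec
  · left
    refine ⟨rfl, ?_⟩
    intro y hy
    exact h (exists_closest hP v ⟨y, hy⟩)

theorem par_root {R : Finset (Fin n)} {P : Finset (Fin n × Fin n)} (r : Fin n)
    (hP : IsForest (univ.erase r) R P) : par r P r = r := by
  rcases par_cases hP r r with h | h
  · exact h.1
  · exfalso
    exact (mem_erase.mp (hP.sub _ _ h.1).2).1 rfl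

theorem par_anc_aux {R : Finset (Fin n)} {P : Finset (Fin n × Fin n)} (r : Fin n)
    (hP : IsForest (univ.erase r) R P) (m : ℕ) : ∀ v, (ancs P v).card = m →
    (∃ k : ℕ, (par r P)^[k] v = r) ∧
      ∀ y, (y, v) ∈ P ↔ (y ≠ r ∧ v ≠ r ∧ v ≠ y ∧ ∃ k : ℕ, (par r P)^[k] v = y) := by
  have hroot := par_root r hP
  have hfix : ∀ k : ℕ, (par r P)^[k] r = r := fun k => Function.iterate_fixed hroot k
  induction m using Nat.strong_induction_on with
  | _ m ih =>
    intro v hv
    rcases par_cases hP r v with h | h
    · constructor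
      · exact ⟨1, h.1⟩
      · intro y
        constructor
        · intro hy
          exact absurd hy (h.2 y)
        · rintro ⟨h1, h2, h3, k, hk⟩
          rcases k with _ | k
          · exact absurd hk h3
          · rw [Function.iterate_succ_apply, h.1, hfix] at hk
            exact absurd hk.symm h1
    · have hlt := card_ancs_lt hP _ _ h.1
      obtain ⟨⟨k, hk⟩, h2⟩ := ih _ (by omega) (par r P v) rfl
      constructor
      · exact ⟨k + 1, by rw [Function.iterate_succ_apply]; exact hk⟩
      · intro y
        constructor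
        · intro hy
          have hs := hP.sub y v hy
          refine ⟨(mem_erase.mp hs.1).1, (mem_erase.mp hs.2).1, ?_, ?_⟩
          · rintro rfl
            exact hP.irr _ hy
          · rcases h.2 y hy with g | g
            · exact ⟨1, g.symm⟩
            · obtain ⟨_, _, _, l, hl⟩ := (h2 y).mp g
              exact ⟨l + 1, by rw [Function.iterate_succ_apply]; exact hl⟩
        · rintro ⟨h3, h4, h5, l, hl⟩
          rcases l with _ | l
          · exact absurd hl h5
          · rw [Function.iterate_succ_apply] at hl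
            by_cases hy : y = par r P v
            · rw [hy]
              exact h.1
            · have hpr : par r P v ≠ r := (mem_erase.mp (hP.sub _ _ h.1).1).1
              have := (h2 y).mpr ⟨h3, hpr, fun e => hy e.symm, l, hl⟩
              exact hP.trans _ _ _ this h.1

/-- The tree of a forest. -/
noncomputable def toTree (r : Fin n) (P : Finset (Fin n × Fin n))
    (hP : IsForest (univ.erase r) (univ.filter (fun x => x < r)) P) : UprootedTree n where
  root := r
  parent := par r P
  parent_root := par_root r hP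
  reach v := (par_anc_aux r hP _ v rfl).1
  uprooted v hv hp := by
    rcases par_cases hP r v with h | h
    · have := hP.roots v (mem_erase.mpr ⟨hv, mem_univ _⟩) h.2
      exact (mem_filter.mp this).2
    · exfalso
      rw [hp] at h
      exact (mem_erase.mp (hP.sub _ _ h.1).1).1 rfl

theorem rel_toTree (r : Fin n) (P : Finset (Fin n × Fin n))
    (hP : IsForest (univ.erase r) (univ.filter (fun x => x < r)) P) :
    (toTree r P hP).rel = P := by
  ext ⟨y, x⟩
  rw [mem_rel]
  exact ((par_anc_aux r hP _ x rfl).2 y).symm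

/-- Trees as roots with forests. -/
noncomputable def treeMap (n : ℕ) (T : UprootedTree n) :
    Σ r : Fin n, {P : Finset (Fin n × Fin n) //
      P ∈ forests (univ.erase r) (univ.filter (fun x => x < r))} :=
  ⟨T.root, ⟨T.rel, (mem_forests _ _ _).mpr (rel_isForest T)⟩⟩

theorem treeMap_bijective (n : ℕ) : Function.Bijective (treeMap n) := by
  constructor
  · intro T T' h
    have hr : T.root = T'.root := congrArg (fun z => z.1) h
    have hrel : T.rel = T'.rel := congrArg (fun z => z.2.1) h
    have hpar : T.parent = T'.parent := funext (parent_eq_of_rel T T' hr hrel)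
    cases T
    cases T'
    simp only at hr hpar
    subst hr
    subst hpar
    rfl
  · rintro ⟨r, ⟨P, hP⟩⟩
    have hP' := (mem_forests _ _ _).mp hP
    refine ⟨toTree r P hP', ?_⟩
    have h := rel_toTree r P hP'
    apply Sigma.ext
    · rfl
    · apply heq_of_eq
      exact Subtype.ext h

theorem surface_eq_inv (T : UprootedTree n) : T.surfaceInversions = inv T.rel := by
  classical
  unfold UprootedTree.surfaceInversions inv
  rw [Nat.card_eq_fintype_card, Fintype.card_subtype]
  congr 1
  ext ⟨y, x⟩
  rw [mem_filter, mem_filter, mem_rel]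
  unfold UprootedTree.IsSurfaceInversion UprootedTree.Anc
  simp only [mem_univ, true_and]
  tauto

theorem card_trees (n k : ℕ) : Nat.card {T : UprootedTree n // T.surfaceInversions = k} =
    ∑ r : Fin n, ((forests (univ.erase r) (univ.filter (fun x => x < r))).filter
      (fun P => inv P = k)).card := by
  let e : UprootedTree n ≃ _ := Equiv.ofBijective _ (treeMap_bijective n)
  have h1 : Nat.card {T : UprootedTree n // T.surfaceInversions = k} =
      Nat.card {y : Σ r : Fin n, {P : Finset (Fin n × Fin n) //
        P ∈ forests (univ.erase r) (univ.filter (fun x => x < r))} // inv y.2.1 = k} := by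
    apply Nat.card_congr
    apply e.subtypeEquiv
    intro T
    rw [surface_eq_inv]
    rfl
  rw [h1]
  have h2 : Nat.card {y : Σ r : Fin n, {P : Finset (Fin n × Fin n) //
        P ∈ forests (univ.erase r) (univ.filter (fun x => x < r))} // inv y.2.1 = k} =
      Nat.card (Σ r : Fin n, {P : Finset (Fin n × Fin n) //
        P ∈ (forests (univ.erase r) (univ.filter (fun x => x < r))).filter
          (fun P => inv P = k)}) := by
    apply Nat.card_eq_of_bijective (fun y => ⟨y.1.1, ⟨y.1.2.1, mem_filter.mpr ⟨y.1.2.2, y.2⟩⟩⟩)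
    constructor
    · rintro ⟨⟨r, P, hP⟩, h⟩ ⟨⟨r', P', hP'⟩, h'⟩ e
      have e1 : r = r' := congrArg (fun z => z.1) e
      have e2 : P = P' := congrArg (fun z => z.2.1) e
      subst e1
      subst e2
      rfl
    · rintro ⟨r, ⟨P, hP⟩⟩
      rw [mem_filter] at hP
      exact ⟨⟨⟨r, ⟨P, hP.1⟩⟩, hP.2⟩, rfl⟩
  rw [h2, Nat.card_sigma]
  refine Finset.sum_congr rfl fun r _ => ?_
  rw [Nat.card_eq_fintype_card, Fintype.card_coe]

end Q162Sph
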