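import Mathlib.Algebra.Polynomial.Roots
import Mathlib.Data.Fin.Tuple.Sort
import Pool.Agent.Q162.Sph.Equal
import Pool.Agent.Q162.Sph.Tree

/-!
# Spherical parking functions and uprooted trees
-/

namespace Q162Sph

open Finset

/-- Spherical parking functions of length `n`: with `c₁ ≤ ⋯ ≤ cₙ` the nondecreasing rearrangement
of `a` (`c_{i+1}` is the value at `i : Fin n` of `a ∘ Tuple.sort a`), `c₁ = 1` and `c_i < i` for
`2 ≤ i ≤ n`. -/
def IsSpherical {n : ℕ} (a : Fin n → ℕ) : Prop :=
  ∀ i : Fin n, if (i : ℕ) = 0 then a (Tuple.sort a i) = 1 else a (Tuple.sort a i) < (i : ℕ) + 1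

theorem card_le_iff {n : ℕ} (a : Fin n → ℕ) (i : Fin n) (j : ℕ) :
    a (Tuple.sort a i) ≤ j ↔ (i : ℕ) + 1 ≤ (univ.filter (fun x => a x ≤ j)).card := by
  have hmono : Monotone (a ∘ Tuple.sort a) := Tuple.monotone_sort a
  have hcard : (univ.filter (fun x => a x ≤ j)).card =
      (univ.filter (fun x => a (Tuple.sort a x) ≤ j)).card := by
    have hmap : univ.filter (fun x => a x ≤ j) =
        (univ.filter (fun x => a (Tuple.sort a x) ≤ j)).map (Tuple.sort a).toEmbedding := by
      ext x
      simp only [mem_filter, mem_univ, true_and, Finset.mem_map, Equiv.coe_toEmbedding]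
      constructor
      · intro h
        exact ⟨(Tuple.sort a).symm x, by rw [Equiv.apply_symm_apply]; exact h, by simp⟩
      · rintro ⟨y, hy, e⟩
        rw [← e]
        exact hy
    rw [hmap, Finset.card_map]
  rw [hcard]
  constructor
  · intro h
    have h1 : univ.filter (fun x : Fin n => x ≤ i) ⊆
        univ.filter (fun x => a (Tuple.sort a x) ≤ j) := by
      intro x hx
      rw [mem_filter] at hx ⊢
      exact ⟨mem_univ _, le_trans (hmono hx.2) h⟩
    have h2 := Finset.card_le_card h1
    have h3 : (univ.filter (fun x : Fin n => x ≤ i)).card = i + 1 := by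
      have : univ.filter (fun x : Fin n => x ≤ i) = Finset.Iic i := by
        ext x
        simp
      rw [this, Fin.card_Iic]
    omega
  · intro h
    by_contra hlt
    push Not at hlt
    have h1 : univ.filter (fun x => a (Tuple.sort a x) ≤ j) ⊆
        univ.filter (fun x : Fin n => x < i) := by
      intro x hx
      rw [mem_filter] at hx ⊢
      refine ⟨mem_univ _, ?_⟩
      by_contra hge
      push Not at hge
      have := hmono hge
      simp only [Function.comp_apply] at this
      omega
    have h2 := Finset.card_le_card h1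
    have h3 : (univ.filter (fun x : Fin n => x < i)).card = i := by
      have : univ.filter (fun x : Fin n => x < i) = Finset.Iio i := by
        ext x
        simp
      rw [this, Fin.card_Iio]
    omega

theorem spherical_iff {n : ℕ} (hn : 1 ≤ n) (a : Fin n → ℕ) :
    IsSpherical a ↔ IsPrimeOn univ a := by
  have hmono : Monotone (a ∘ Tuple.sort a) := Tuple.monotone_sort a
  unfold IsSpherical IsPrimeOn
  rw [Finset.card_univ, Fintype.card_fin]
  constructor
  · intro h
    have h0 := h ⟨0, hn⟩
    rw [if_pos rfl] at h0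
    have hge : ∀ x, 1 ≤ a x := by
      intro x
      have h1 : a (Tuple.sort a ⟨0, hn⟩) ≤ a (Tuple.sort a ((Tuple.sort a).symm x)) :=
        hmono (Fin.mk_le_of_le_val (Nat.zero_le _))
      rw [Equiv.apply_symm_apply, h0] at h1
      exact h1
    refine ⟨?_, fun x hx => absurd (mem_univ x) hx, ?_⟩
    · intro x _
      refine ⟨hge x, ?_⟩
      have h1 := h ((Tuple.sort a).symm x)
      have h2 := ((Tuple.sort a).symm x).2
      rw [Equiv.apply_symm_apply] at h1
      split_ifs at h1 with h3 <;> omega
    · intro j hj1 hj2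
      have h1 := h ⟨j, hj2⟩
      rw [if_neg (by simp only; omega)] at h1
      simp only at h1
      have h2 := (card_le_iff a ⟨j, hj2⟩ j).mp (by omega)
      exact h2
  · rintro ⟨h1, _, h3⟩ i
    split_ifs with hi
    · have h4 : 1 ≤ a (Tuple.sort a i) := (h1 _ (mem_univ _)).1
      have h5 : a (Tuple.sort a i) ≤ 1 := by
        rcases Nat.lt_or_ge 1 n with h | h
        · rw [card_le_iff, hi]
          have := h3 1 le_rfl h
          omega
        · have h6 := (h1 (Tuple.sort a i) (mem_univ _)).2
          omega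
      omega
    · have h4 := h3 i (by omega) i.2
      have h5 := (card_le_iff a i i).mpr h4
      omega

theorem card_spherical {n : ℕ} (hn : 1 ≤ n) (k : ℕ) :
    Nat.card {a : Fin n → ℕ // IsSpherical a ∧ ∑ i, a i + k = n.choose 2 + 1} =
      ((primes (univ : Finset (Fin n))).filter
        (fun a => n.choose 2 + 1 - ∑ x, a x = k)).card := by
  classical
  have h1 : ∀ a : Fin n → ℕ, (IsSpherical a ∧ ∑ i, a i + k = n.choose 2 + 1) ↔
      a ∈ (primes (univ : Finset (Fin n))).filter (fun a => n.choose 2 + 1 - ∑ x, a x = k) := by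
    intro a
    rw [mem_filter, mem_primes, spherical_iff hn]
    constructor
    · rintro ⟨h2, h3⟩
      exact ⟨h2, by omega⟩
    · rintro ⟨h2, h3⟩
      refine ⟨h2, ?_⟩
      have hne : (univ : Finset (Fin n)).Nonempty := ⟨⟨0, hn⟩, mem_univ _⟩
      have h4 := prime_sum_le (univ : Finset (Fin n)) hne a h2
      rw [Finset.card_univ, Fintype.card_fin] at h4
      omega
  rw [Nat.card_congr (Equiv.subtypeEquivRight h1), Nat.card_eq_fintype_card, Fintype.card_coe]

/-- Coefficients of a sum of monomials. -/
theorem coeff_sum_X {ι : Type*} (s : Finset ι) (f : ι → ℕ) (k : ℕ) :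
    (∑ i ∈ s, (Polynomial.X : Polynomial ℤ) ^ f i).coeff k = ((s.filter (fun i => f i = k)).card : ℤ) := by
  rw [Polynomial.finsetSum_coeff, Finset.card_filter]
  push_cast
  refine Finset.sum_congr rfl fun i _ => ?_
  rw [Polynomial.coeff_X_pow]
  simp only [eq_comm]

theorem main {n : ℕ} (hn : 1 ≤ n) (k : ℕ) :
    Nat.card {a : Fin n → ℕ // IsSpherical a ∧ ∑ i, a i + k = n.choose 2 + 1} =
      Nat.card {T : UprootedTree n // T.surfaceInversions = k} := by
  rw [card_spherical hn, card_trees]
  set p : Polynomial ℤ := ∑ a ∈ primes (univ : Finset (Fin n)),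
    (Polynomial.X : Polynomial ℤ) ^ (n.choose 2 + 1 - ∑ x, a x) with hp
  set p' : Polynomial ℤ := ∑ r : Fin n, ∑ P ∈ forests (univ.erase r) (univ.filter (fun x => x < r)),
    (Polynomial.X : Polynomial ℤ) ^ inv P with hp'
  have hev : ∀ t : ℕ, 1 ≤ t → p.eval ((t + 1 : ℕ) : ℤ) = p'.eval ((t + 1 : ℕ) : ℤ) := by
    intro t ht
    have hne : (univ : Finset (Fin n)).Nonempty := ⟨⟨0, hn⟩, mem_univ _⟩
    have h := UU_eq_VV t ht _ (univ : Finset (Fin n)) rfl hne
    have e1 : p.eval ((t + 1 : ℕ) : ℤ) = (VV (t + 1) (univ : Finset (Fin n)) : ℤ) := by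
      rw [hp, Polynomial.eval_finsetSum]
      unfold VV
      push_cast
      rw [Finset.card_univ, Fintype.card_fin]
      refine Finset.sum_congr rfl fun a _ => ?_
      rw [Polynomial.eval_pow, Polynomial.eval_X]
    have e2 : p'.eval ((t + 1 : ℕ) : ℤ) = (UU (t + 1) (univ : Finset (Fin n)) : ℤ) := by
      rw [hp', Polynomial.eval_finsetSum]
      unfold UU AA
      push_cast
      refine Finset.sum_congr rfl fun r _ => ?_
      rw [Polynomial.eval_finsetSum]
      refine Finset.sum_congr rfl fun P _ => ?_
      rw [Polynomial.eval_pow, Polynomial.eval_X]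
    rw [e1, e2, h]
  have hpp : p = p' := by
    apply Polynomial.eq_of_infinite_eval_eq
    apply Set.Infinite.mono (s := Set.range (fun t : ℕ => ((t + 2 : ℕ) : ℤ)))
    · rintro x ⟨t, rfl⟩
      exact hev (t + 1) (by omega)
    · apply Set.infinite_range_of_injective
      intro a b h
      simp only [Nat.cast_inj] at h
      omega
  have hc := congrArg (fun f => Polynomial.coeff f k) hpp
  rw [hp, hp', coeff_sum_X, Polynomial.finsetSum_coeff] at hc
  simp only [coeff_sum_X] at hc
  exact_mod_cast hc

end Q162Sph
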